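import Mathlib

set_option autoImplicit false
open MeasureTheory Filter Topology Set Metric
open scoped ContDiff Gradient RealInnerProductSpace ENNReal

noncomputable section
namespace Pool.Agent.helper13.BN
variable {X : Type*} [NormedAddCommGroup X] [InnerProductSpace ℝ X] [CompleteSpace X]

/-- bounded below + symmetric ⇒ bijective (Lax–Milgram style) -/
theorem bij_of_symm {B : X →L[ℝ] X} (hs : ∀ x y, ⟪B x, y⟫ = ⟪x, B y⟫) {m : ℝ} (hm : 0 < m)
    (hb : ∀ x, m * ‖x‖ ≤ ‖B x‖) : ∃ R : X →L[ℝ] X, (∀ x, B (R x) = x) ∧ (∀ x, R (B x) = x) ∧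
      ∀ x, ‖R x‖ ≤ m⁻¹ * ‖x‖ := by
  have hker : ∀ x, B x = 0 → x = 0 := by
    intro x hx
    have h := hb x
    rw [hx, norm_zero] at h
    have : ‖x‖ ≤ 0 := by
      by_contra hc
      push Not at hc
      nlinarith
    exact norm_le_zero_iff.1 this
  have hinj : Function.Injective B := by
    intro x y hxy
    have : B (x - y) = 0 := by rw [map_sub, hxy, sub_self]
    exact sub_eq_zero.1 (hker _ this)
  have hanti : AntilipschitzWith (Real.toNNReal m⁻¹) B := by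
    refine B.antilipschitz_of_bound fun x => ?_
    have h := hb x
    have h2 : (0 : ℝ) < m⁻¹ := inv_pos.2 hm
    rw [Real.coe_toNNReal _ h2.le]
    calc ‖x‖ = m⁻¹ * (m * ‖x‖) := by field_simp
      _ ≤ m⁻¹ * ‖B x‖ := by gcongr
      _ = _ := rfl
  have hcl : IsClosed (Set.range B) := hanti.isClosed_range B.uniformContinuous
  have hdense : (LinearMap.range B.toLinearMap)ᗮ = ⊥ := by
    rw [Submodule.eq_bot_iff]
    intro x hx
    rw [Submodule.mem_orthogonal] at hx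
    apply hker
    have h := hx (B (B x)) ⟨B x, rfl⟩
    rw [hs] at h
    exact inner_self_eq_zero.1 h
  have hclS : IsClosed ((LinearMap.range B.toLinearMap : Submodule ℝ X) : Set X) := by
    have : ((LinearMap.range B.toLinearMap : Submodule ℝ X) : Set X) = Set.range B := by
      ext y; simp
    rw [this]; exact hcl
  have hsurj : Function.Surjective B := by
    intro y
    have : CompleteSpace (LinearMap.range B.toLinearMap) := hclS.completeSpace_coe
    have htop : LinearMap.range B.toLinearMap = ⊤ :=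
      Submodule.orthogonal_eq_bot_iff.1 hdense
    have : y ∈ LinearMap.range B.toLinearMap := by rw [htop]; trivial
    exact this
  let e : X ≃ₗ[ℝ] X := LinearEquiv.ofBijective B.toLinearMap ⟨hinj, hsurj⟩
  have he : ∀ x, B (e.symm x) = x := fun x => by
    have := e.apply_symm_apply x
    exact this
  have he' : ∀ x, e.symm (B x) = x := fun x => by
    have := e.symm_apply_apply x
    exact this
  refine ⟨LinearMap.mkContinuous e.symm.toLinearMap m⁻¹ ?_, fun x => he x, fun x => he' x, ?_⟩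
  · intro x
    have h := hb (e.symm x)
    rw [he x] at h
    change ‖e.symm x‖ ≤ _
    calc ‖e.symm x‖ = m⁻¹ * (m * ‖e.symm x‖) := by field_simp
      _ ≤ m⁻¹ * ‖x‖ := by gcongr
  · intro x
    have h := hb (e.symm x)
    rw [he x] at h
    change ‖e.symm x‖ ≤ _
    calc ‖e.symm x‖ = m⁻¹ * (m * ‖e.symm x‖) := by field_simp
      _ ≤ m⁻¹ * ‖x‖ := by gcongr

/-- augmented version: `(φ, c) ↦ (B φ - ∑ c_a Z_a, ⟨Z_a, φ⟩)` -/
theorem aug_of_symm {k : ℕ} {B : X →L[ℝ] X} (hs : ∀ x y, ⟪B x, y⟫ = ⟪x, B y⟫) (Z : Fin k → X)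
    {m : ℝ} (hm : 0 < m)
    (hb : ∀ (x : X) (c : Fin k → ℝ), m * (‖x‖ + ∑ a, |c a|)
      ≤ ‖B x - ∑ a, c a • Z a‖ + ∑ a, |⟪Z a, x⟫|) :
    ∀ (y : X) (d : Fin k → ℝ), ∃! z : X × (Fin k → ℝ),
      B z.1 - ∑ a, z.2 a • Z a = y ∧ ∀ a, ⟪Z a, z.1⟫ = d a := by
  intro y d
  let F := EuclideanSpace ℝ (Fin k)
  let e := WithLp.prodContinuousLinearEquiv 2 ℝ X F
  let T₀ : (X × F) →L[ℝ] (X × F) :=
    ((B.comp (ContinuousLinearMap.fst ℝ X F)) - ∑ a : Fin k,
        ((EuclideanSpace.proj (𝕜 := ℝ) a).comp (ContinuousLinearMap.snd ℝ X F)).smulRight (Z a)).prod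
      (-((EuclideanSpace.equiv (Fin k) ℝ).symm.toContinuousLinearMap.comp
        (ContinuousLinearMap.pi fun a => (innerSL ℝ (Z a)).comp (ContinuousLinearMap.fst ℝ X F))))
  have hT₀1 : ∀ z : X × F, (T₀ z).1 = B z.1 - ∑ a, z.2 a • Z a := by
    intro z
    simp [T₀]
  have hT₀2 : ∀ (z : X × F) (a : Fin k), (T₀ z).2 a = - ⟪Z a, z.1⟫ := by
    intro z a
    simp [T₀]
    rfl
  let T : WithLp 2 (X × F) →L[ℝ] WithLp 2 (X × F) :=
    e.symm.toContinuousLinearMap.comp (T₀.comp e.toContinuousLinearMap)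
  have hTf : ∀ z, (T z).fst = B z.fst - ∑ a, z.snd a • Z a := by
    intro z
    exact hT₀1 (e z)
  have hTs : ∀ z (a : Fin k), (T z).snd a = - ⟪Z a, z.fst⟫ := by
    intro z a
    exact hT₀2 (e z) a
  have hsymm : ∀ z w, ⟪T z, w⟫ = ⟪z, T w⟫ := by
    intro z w
    rw [WithLp.prod_inner_apply, WithLp.prod_inner_apply]
    simp only [WithLp.ofLp_fst, WithLp.ofLp_snd]
    rw [hTf, hTf, inner_sub_left, inner_sub_right, hs, sum_inner, inner_sum,
      PiLp.inner_apply, PiLp.inner_apply]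
    simp only [hTs, inner_smul_left, inner_smul_right, RCLike.inner_apply, conj_trivial]
    have h1 : ∀ a, ⟪Z a, z.fst⟫ = ⟪z.fst, Z a⟫ := fun a => real_inner_comm _ _
    simp only [h1]
    simp only [mul_neg, Finset.sum_neg_distrib, neg_mul]
    have h2 : ∑ x, w.snd x * ⟪z.fst, Z x⟫ = ∑ x, ⟪z.fst, Z x⟫ * w.snd x :=
      Finset.sum_congr rfl fun a _ => mul_comm _ _
    have h3 : ∑ x, z.snd x * ⟪Z x, w.fst⟫ = ∑ x, ⟪Z x, w.fst⟫ * z.snd x :=
      Finset.sum_congr rfl fun a _ => mul_comm _ _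
    linarith
  have hfst : ∀ z : WithLp 2 (X × F), ‖z.fst‖ ≤ ‖z‖ := by
    intro z
    have h := WithLp.prod_norm_sq_eq_of_L2 z
    nlinarith [sq_nonneg ‖z.snd‖, norm_nonneg z, norm_nonneg z.fst]
  have hsnd : ∀ z : WithLp 2 (X × F), ‖z.snd‖ ≤ ‖z‖ := by
    intro z
    have h := WithLp.prod_norm_sq_eq_of_L2 z
    nlinarith [sq_nonneg ‖z.fst‖, norm_nonneg z, norm_nonneg z.snd]
  have hsum : ∀ x : F, ‖x‖ ≤ ∑ a, |x a| := by
    intro x
    rw [EuclideanSpace.norm_eq]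
    apply Real.sqrt_le_iff.2
    refine ⟨Finset.sum_nonneg fun a _ => abs_nonneg _, ?_⟩
    have := Finset.sum_sq_le_sq_sum_of_nonneg (s := Finset.univ) (f := fun a => |x a|)
      (fun a _ => abs_nonneg _)
    simpa [Real.norm_eq_abs] using this
  have hle : ∀ z : WithLp 2 (X × F), ‖z‖ ≤ ‖z.fst‖ + ‖z.snd‖ := by
    intro z
    have h := WithLp.prod_norm_sq_eq_of_L2 z
    have h1 : 0 ≤ ‖z.fst‖ * ‖z.snd‖ := by positivity
    nlinarith [norm_nonneg z, norm_nonneg z.fst, norm_nonneg z.snd]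
  have hk : (0 : ℝ) < 1 + k := by positivity
  have hbd : ∀ z, (m / (1 + k)) * ‖z‖ ≤ ‖T z‖ := by
    intro z
    have h1 := hb z.fst z.snd
    have h2 : ‖B z.fst - ∑ a, z.snd a • Z a‖ ≤ ‖T z‖ := by
      rw [← hTf]; exact hfst _
    have h3 : ∑ a, |⟪Z a, z.fst⟫| ≤ k * ‖T z‖ := by
      calc ∑ a, |⟪Z a, z.fst⟫| ≤ ∑ a : Fin k, ‖T z‖ := by
            apply Finset.sum_le_sum
            intro a _
            have h4 := hTs z a
            have h5 : |⟪Z a, z.fst⟫| = ‖(T z).snd a‖ := by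
              rw [h4, norm_neg, Real.norm_eq_abs]
            rw [h5]
            exact (PiLp.norm_apply_le _ a).trans (hsnd _)
        _ = k * ‖T z‖ := by simp
    have h6 : ‖z‖ ≤ ‖z.fst‖ + ∑ a, |z.snd a| := (hle z).trans (by gcongr; exact hsum _)
    rw [div_mul_eq_mul_div, div_le_iff₀ hk]
    nlinarith [mul_le_mul_of_nonneg_left h6 hm.le]
  obtain ⟨R, hR1, hR2, -⟩ := bij_of_symm hsymm (div_pos hm hk) hbd
  let w : WithLp 2 (X × F) := WithLp.toLp 2 (y, WithLp.toLp 2 fun a => - d a)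
  have hex : ∃ z : WithLp 2 (X × F), T z = w := ⟨R w, hR1 w⟩
  obtain ⟨z, hz⟩ := hex
  refine ⟨(z.fst, fun a => z.snd a), ⟨?_, ?_⟩, ?_⟩
  · have := hTf z
    rw [hz] at this
    exact this.symm
  · intro a
    have := hTs z a
    rw [hz] at this
    have h7 : w.snd a = - d a := rfl
    rw [h7] at this
    simpa using (neg_injective this).symm
  · rintro ⟨x, c⟩ ⟨h1, h2⟩
    dsimp only at h1 h2
    let z' : WithLp 2 (X × F) := WithLp.toLp 2 (x, WithLp.toLp 2 c)
    have hz' : T z' = w := by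
      have e1 : (T z').fst = w.fst := by
        rw [hTf]; exact h1
      have e2 : (T z').snd = w.snd := by
        ext a
        rw [hTs]
        change - ⟪Z a, x⟫ = - d a
        rw [h2]
      exact WithLp.ofLp_injective 2 (Prod.ext e1 e2)
    have h8 : z' = z := by
      rw [← hR2 z', hz', ← hz, hR2]
    rw [← h8]
    rfl

/-- compact + symmetric + injective `1 - K` ⇒ bounded below -/
theorem bddBelow_of_compact {K : X →L[ℝ] X} (hK : IsCompactOperator K)
    (hi : ∀ x, K x = x → x = 0) : ∃ m : ℝ, 0 < m ∧ ∀ x, m * ‖x‖ ≤ ‖x - K x‖ := by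
  by_contra hcon
  push Not at hcon
  have h1 : ∀ n : ℕ, ∃ x : X, ‖x - K x‖ < ((n : ℝ) + 1)⁻¹ * ‖x‖ := fun n =>
    hcon _ (by positivity)
  choose x hx using h1
  have hxpos : ∀ n, 0 < ‖x n‖ := by
    intro n
    have h := hx n
    have h0 : 0 ≤ ‖x n - K (x n)‖ := norm_nonneg _
    by_contra hc
    have : ‖x n‖ = 0 := le_antisymm (not_lt.1 hc) (norm_nonneg _)
    rw [this, mul_zero] at h
    linarith
  let u : ℕ → X := fun n => ‖x n‖⁻¹ • x n
  have hu1 : ∀ n, ‖u n‖ = 1 := by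
    intro n
    simp only [u, norm_smul, norm_inv, norm_norm]
    exact inv_mul_cancel₀ (hxpos n).ne'
  have hu2 : ∀ n, ‖u n - K (u n)‖ ≤ ((n : ℝ) + 1)⁻¹ := by
    intro n
    have : u n - K (u n) = ‖x n‖⁻¹ • (x n - K (x n)) := by
      simp only [u, map_smul, smul_sub]
    rw [this, norm_smul, norm_inv, norm_norm]
    have h := (hx n).le
    calc ‖x n‖⁻¹ * ‖x n - K (x n)‖ ≤ ‖x n‖⁻¹ * (((n : ℝ) + 1)⁻¹ * ‖x n‖) := by gcongr
      _ = ((n : ℝ) + 1)⁻¹ * (‖x n‖⁻¹ * ‖x n‖) := by ring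
      _ = ((n : ℝ) + 1)⁻¹ := by rw [inv_mul_cancel₀ (hxpos n).ne', mul_one]
  obtain ⟨S, hS, hSsub⟩ := IsCompactOperator.image_closedBall_subset_compact (f := K.toLinearMap) hK 1
  have hmem : ∀ n, K (u n) ∈ S := fun n => hSsub ⟨u n, by simp [hu1 n], rfl⟩
  obtain ⟨y, -, φ, hφ, hy⟩ := hS.tendsto_subseq hmem
  have hlim : Tendsto (fun n => u (φ n) - K (u (φ n))) atTop (𝓝 0) := by
    rw [tendsto_zero_iff_norm_tendsto_zero]
    have h3 : Tendsto (fun n : ℕ => (((φ n : ℕ) : ℝ) + 1)⁻¹) atTop (𝓝 0) := by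
      have h4 : Tendsto (fun n : ℕ => ((n : ℝ) + 1)⁻¹) atTop (𝓝 0) := by
        have := tendsto_one_div_add_atTop_nhds_zero_nat (𝕜 := ℝ)
        simpa [one_div] using this
      exact h4.comp hφ.tendsto_atTop
    exact squeeze_zero (fun n => norm_nonneg _) (fun n => hu2 (φ n)) h3
  have hu : Tendsto (fun n => u (φ n)) atTop (𝓝 y) := by
    have := hlim.add hy
    simpa using this
  have hKy : K y = y := by
    have h5 : Tendsto (fun n => K (u (φ n))) atTop (𝓝 (K y)) := (K.continuous.tendsto y).comp hu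
    exact tendsto_nhds_unique h5 hy
  have hy1 : ‖y‖ = 1 := by
    have h6 : Tendsto (fun n => ‖u (φ n)‖) atTop (𝓝 ‖y‖) := hu.norm
    have h7 : (fun n => ‖u (φ n)‖) = fun _ => (1 : ℝ) := funext fun n => hu1 (φ n)
    rw [h7] at h6
    exact (tendsto_nhds_unique h6 tendsto_const_nhds)
  have := hi y hKy
  rw [this, norm_zero] at hy1
  exact zero_ne_one hy1

end Pool.Agent.helper13.BN
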