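import Mathlib

set_option autoImplicit false
open MeasureTheory Filter Topology Set Metric
open scoped ContDiff Gradient RealInnerProductSpace ENNReal

noncomputable section
namespace Pool.Agent.helper13.BN

theorem lin_quad {C X E : ℝ} (hC : 0 < C) (hE : 0 ≤ E)
    (h : X ^ 2 ≤ C * (2 * E * X + E ^ 2)) : X ≤ (2 * C + 1) * E := by
  by_contra hc
  push Not at hc
  have e1 : 0 ≤ (2 * C + 1) * E := by positivity
  have e2 : 0 < X := by linarith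
  have e3 : (2 * C + 1) * E * X < X * X := mul_lt_mul_of_pos_right hc e2
  have e4 : E * ((2 * C + 1) * E) ≤ E * X := mul_le_mul_of_nonneg_left hc.le hE
  have e5 : 0 ≤ (C + 1) * E ^ 2 := by positivity
  have e6 : E * ((2 * C + 1) * E) = C * E ^ 2 + (C + 1) * E ^ 2 := by ring
  have e7 : (2 * C + 1) * E * X = C * (2 * E * X) + E * X := by ring
  have e8 : C * (2 * E * X + E ^ 2) = C * (2 * E * X) + C * E ^ 2 := by ring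
  have e9 : X ^ 2 = X * X := by ring
  linarith only [h, e3, e4, e5, e6, e7, e8, e9]

theorem lin_three (a b c : ℝ) : (a + b + c) ^ 2 ≤ 3 * (a ^ 2 + b ^ 2 + c ^ 2) := by
  nlinarith [sq_nonneg (a - b), sq_nonneg (a - c), sq_nonneg (b - c)]

/-- real arithmetic of the linear theory -/
theorem lin_real {M m₀ η : ℝ} (hM : 1 ≤ M) (hm₀ : 0 < m₀) (hη : 0 < η) :
    ∃ δ₀ K : ℝ, 0 < δ₀ ∧ 0 < K ∧ ∀ δ X S R T r1 Y b α x' : ℝ,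
      0 ≤ δ → δ ≤ δ₀ → 0 ≤ X → 0 ≤ S → 0 ≤ R → 0 ≤ T → 0 ≤ r1 → 0 ≤ Y → 0 ≤ b → 0 ≤ α →
      0 ≤ x' →
      m₀ * r1 ≤ R + 2 * δ * X + δ * S →
      S ≤ 4 * M ^ 2 * δ * X + 4 * M ^ 3 * r1 →
      Y ≤ r1 + M * S →
      b ≤ 2 * M ^ 2 * (T + 4 * M * δ * X) →
      η * (α ^ 2 + x' ^ 2) ≤ (1 + 4 * M ^ 2) * Y * X + δ * M * b ^ 2 + 2 * δ * b * X →
      X ≤ M * α + M * b + x' → X + S ≤ K * (R + T) := by
  have hM0 : 0 < M := by linarith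
  obtain ⟨C1, hC1⟩ : ∃ C1 : ℝ, C1 = 8 * M ^ 2 + 16 * M ^ 3 / m₀ := ⟨_, rfl⟩
  have hC1p : 0 < C1 := by rw [hC1]; positivity
  obtain ⟨C2, hC2⟩ : ∃ C2 : ℝ, C2 = (2 + C1) / m₀ := ⟨_, rfl⟩
  have hC2p : 0 < C2 := by rw [hC2]; positivity
  obtain ⟨C3, hC3⟩ : ∃ C3 : ℝ, C3 = C2 + M * C1 := ⟨_, rfl⟩
  have hC3p : 0 < C3 := by rw [hC3]; positivity
  obtain ⟨C4, hC4⟩ : ∃ C4 : ℝ, C4 = 2 * M ^ 2 * (1 + 4 * M) := ⟨_, rfl⟩
  have hC4p : 0 < C4 := by rw [hC4]; positivity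
  obtain ⟨C6, hC6⟩ : ∃ C6 : ℝ, C6 = ((1 + 4 * M ^ 2) * C3 + M * C4 ^ 2 + 2 * C4) / η := ⟨_, rfl⟩
  have hC6p : 0 < C6 := by rw [hC6]; positivity
  obtain ⟨C5, hC5⟩ : ∃ C5 : ℝ, C5 = 3 * M ^ 2 * C6 + 3 * M ^ 2 * C4 ^ 2 := ⟨_, rfl⟩
  have hC5p : 0 < C5 := by rw [hC5]; positivity
  refine ⟨min (min 1 (m₀ / (8 * M ^ 3))) (1 / (2 * (2 * C5 + 1))),
    2 * (2 * C5 + 1) + C1 * (1 + 2 * (2 * C5 + 1)),
    by positivity, by positivity, ?_⟩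
  intro δ X S R T r1 Y b α x' hδ hδ₀ hX hS hR hT hr1 hY hb hα hx' h1 h2 h3 h4 h5 h6
  have hδ1 : δ ≤ 1 := hδ₀.trans ((min_le_left _ _).trans (min_le_left _ _))
  have hδ2 : δ ≤ m₀ / (8 * M ^ 3) := hδ₀.trans ((min_le_left _ _).trans (min_le_right _ _))
  have hδ3 : δ ≤ 1 / (2 * (2 * C5 + 1)) := hδ₀.trans (min_le_right _ _)
  clear hδ₀
  have hδ2' : 8 * M ^ 3 * δ ≤ m₀ := by
    rw [le_div_iff₀ (by positivity)] at hδ2; linarith only [hδ2]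
  have hδ3' : (2 * C5 + 1) * δ ≤ 1 / 2 := by
    rw [le_div_iff₀ (by positivity)] at hδ3; linarith only [hδ3]
  -- step 1: S, r1, Y
  have hE0 : 0 ≤ R + δ * X := by positivity
  have hr1' : r1 ≤ (R + 2 * δ * X + δ * S) / m₀ := by
    rw [le_div_iff₀ hm₀]; linarith only [h1]
  have hS' : S ≤ C1 * (R + δ * X) := by
    have e1 : 4 * M ^ 3 * r1 ≤ 4 * M ^ 3 * ((R + 2 * δ * X + δ * S) / m₀) := by gcongr
    have e2 : 4 * M ^ 3 * ((R + 2 * δ * X + δ * S) / m₀)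
        = 4 * M ^ 3 / m₀ * (R + 2 * δ * X) + (4 * M ^ 3 * δ / m₀) * S := by
      field_simp
    have e3 : 4 * M ^ 3 * δ / m₀ ≤ 1 / 2 := by
      rw [div_le_iff₀ hm₀]; linarith only [hδ2']
    have e4 : (4 * M ^ 3 * δ / m₀) * S ≤ 1 / 2 * S := by gcongr
    have e5 : S ≤ 8 * M ^ 2 * δ * X + 8 * M ^ 3 / m₀ * (R + 2 * δ * X) := by
      have : 8 * M ^ 3 / m₀ * (R + 2 * δ * X) = 2 * (4 * M ^ 3 / m₀ * (R + 2 * δ * X)) := by ring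
      rw [this]
      linarith only [e1, e2, e4, h2]
    have e6 : C1 * (R + δ * X) = 8 * M ^ 2 * δ * X + 8 * M ^ 3 / m₀ * (R + 2 * δ * X)
        + (8 * M ^ 2 * R + 8 * M ^ 3 / m₀ * R) := by
      rw [hC1]; field_simp; ring
    have e7 : 0 ≤ 8 * M ^ 2 * R + 8 * M ^ 3 / m₀ * R := by positivity
    linarith only [e5, e6, e7]
  have hr1'' : r1 ≤ C2 * (R + δ * X) := by
    refine hr1'.trans ?_
    rw [hC2, div_mul_eq_mul_div]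
    gcongr
    have e1 : δ * S ≤ 1 * (C1 * (R + δ * X)) := by gcongr
    have e2 : (2 + C1) * (R + δ * X) = 2 * R + 2 * (δ * X) + C1 * (R + δ * X) := by ring
    linarith only [e1, e2, hR]
  have hY' : Y ≤ C3 * (R + δ * X) := by
    have : M * S ≤ M * (C1 * (R + δ * X)) := by gcongr
    have e2 : (C2 + M * C1) * (R + δ * X) = C2 * (R + δ * X) + M * (C1 * (R + δ * X)) := by ring
    rw [hC3, e2]; linarith only [this, h3, hr1'']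
  -- step 2
  obtain ⟨E, hE⟩ : ∃ E : ℝ, E = R + T + δ * X := ⟨_, rfl⟩
  have hEp : 0 ≤ E := by rw [hE]; positivity
  have hRE : R + δ * X ≤ E := by rw [hE]; linarith only [hT]
  have hTE : T + δ * X ≤ E := by rw [hE]; linarith only [hR]
  have hbE : b ≤ C4 * E := by
    have e1 : T + 4 * M * δ * X ≤ (1 + 4 * M) * (T + δ * X) := by
      have e0 : 0 ≤ 4 * M * T + δ * X := by positivity
      have e2 : (1 + 4 * M) * (T + δ * X) = T + 4 * M * δ * X + (4 * M * T + δ * X) := by ring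
      linarith only [e0, e2]
    calc b ≤ 2 * M ^ 2 * (T + 4 * M * δ * X) := h4
      _ ≤ 2 * M ^ 2 * ((1 + 4 * M) * (T + δ * X)) := by gcongr
      _ = C4 * (T + δ * X) := by rw [hC4]; ring
      _ ≤ C4 * E := by gcongr
  have hYE : Y ≤ C3 * E := hY'.trans (by gcongr)
  have hsq : X ^ 2 ≤ 3 * M ^ 2 * (α ^ 2 + x' ^ 2) + 3 * M ^ 2 * b ^ 2 := by
    have e1 : X ^ 2 ≤ (M * α + M * b + x') ^ 2 := by gcongr
    have e2 := lin_three (M * α) (M * b) x'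
    have e3 : 1 * x' ^ 2 ≤ M ^ 2 * x' ^ 2 := by
      gcongr
      nlinarith only [hM]
    have e4 : 3 * ((M * α) ^ 2 + (M * b) ^ 2 + x' ^ 2)
        = 3 * M ^ 2 * α ^ 2 + 3 * M ^ 2 * b ^ 2 + 3 * (1 * x' ^ 2) := by ring
    have e5 : 3 * M ^ 2 * (α ^ 2 + x' ^ 2) = 3 * M ^ 2 * α ^ 2 + 3 * (M ^ 2 * x' ^ 2) := by ring
    linarith only [e1, e2, e3, e4, e5]
  have hmain : α ^ 2 + x' ^ 2 ≤ C6 * (E * X + E ^ 2) := by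
    rw [hC6, div_mul_eq_mul_div, le_div_iff₀ hη]
    have e1 : (1 + 4 * M ^ 2) * Y * X ≤ (1 + 4 * M ^ 2) * (C3 * E) * X := by gcongr
    have e2 : δ * M * b ^ 2 ≤ 1 * M * (C4 * E) ^ 2 := by gcongr
    have e3 : 2 * δ * b * X ≤ 2 * 1 * (C4 * E) * X := by gcongr
    have e4 : 0 ≤ (1 + 4 * M ^ 2) * C3 * E ^ 2 := by positivity
    have e5 : 0 ≤ M * C4 ^ 2 * (E * X) := by positivity
    have e6 : 0 ≤ 2 * C4 * E ^ 2 := by positivity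
    have e7 : ((1 + 4 * M ^ 2) * C3 + M * C4 ^ 2 + 2 * C4) * (E * X + E ^ 2)
      = (1 + 4 * M ^ 2) * (C3 * E) * X + 1 * M * (C4 * E) ^ 2 + 2 * 1 * (C4 * E) * X
        + ((1 + 4 * M ^ 2) * C3 * E ^ 2 + M * C4 ^ 2 * (E * X) + 2 * C4 * E ^ 2) := by ring
    linarith only [e1, e2, e3, e4, e5, e6, e7, h5]
  have hX2 : X ^ 2 ≤ C5 * (2 * E * X + E ^ 2) := by
    have e1 : 3 * M ^ 2 * (α ^ 2 + x' ^ 2) ≤ 3 * M ^ 2 * (C6 * (E * X + E ^ 2)) := by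
      gcongr
    have e2 : 3 * M ^ 2 * b ^ 2 ≤ 3 * M ^ 2 * (C4 * E) ^ 2 := by gcongr
    have e3 : C5 * (2 * E * X + E ^ 2) = 3 * M ^ 2 * (C6 * (E * X + E ^ 2))
          + 3 * M ^ 2 * (C4 * E) ^ 2 + (3 * M ^ 2 * C6 * (E * X) + 6 * M ^ 2 * C4 ^ 2 * (E * X)) := by
      rw [hC5]; ring
    have e4 : 0 ≤ 3 * M ^ 2 * C6 * (E * X) + 6 * M ^ 2 * C4 ^ 2 * (E * X) := by positivity
    linarith only [e1, e2, e3, e4, hsq]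
  have hXE : X ≤ (2 * C5 + 1) * E := lin_quad hC5p hEp hX2
  have hXD : X ≤ 2 * (2 * C5 + 1) * (R + T) := by
    have e1 : (2 * C5 + 1) * E = (2 * C5 + 1) * (R + T) + (2 * C5 + 1) * δ * X := by
      rw [hE]; ring
    have e2 : (2 * C5 + 1) * δ * X ≤ 1 / 2 * X := by gcongr
    linarith only [e1, e2, hXE]
  have hSD : S ≤ C1 * ((R + T) + X) := by
    refine hS'.trans ?_
    have e1 : δ * X ≤ 1 * X := by gcongr
    have e0 : R + δ * X ≤ (R + T) + X := by linarith only [e1, hT]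
    exact mul_le_mul_of_nonneg_left e0 hC1p.le
  have e1 : C1 * ((R + T) + X) ≤ C1 * ((R + T) + 2 * (2 * C5 + 1) * (R + T)) := by gcongr
  have e2 : (2 * (2 * C5 + 1) + C1 * (1 + 2 * (2 * C5 + 1))) * (R + T)
    = 2 * (2 * C5 + 1) * (R + T) + C1 * ((R + T) + 2 * (2 * C5 + 1) * (R + T)) := by ring
  linarith only [e1, e2, hXD, hSD]

/-- THE LINEAR THEORY: `1 - K₀ - K₁ - K₂` is bounded below modulo the `Z_a` -/
theorem lin_abstract {p κ M m₀ : ℝ} (hp : 1 < p) (hκ : κ < 1) (hM : 0 < M) (hm₀ : 0 < m₀) :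
    ∃ δ m : ℝ, 0 < δ ∧ 0 < m ∧
      ∀ (X : Type) [NormedAddCommGroup X] [InnerProductSpace ℝ X] [CompleteSpace X]
        (K₀ K₁ K₂ : X →L[ℝ] X) (W : X) (Z : Fin 2 → X),
        (∀ x y, ⟪K₀ x, y⟫ = ⟪x, K₀ y⟫) → (∀ x y, ⟪K₁ x, y⟫ = ⟪x, K₁ y⟫) →
        ‖K₀‖ ≤ M → ‖K₁‖ ≤ M → ‖K₂‖ ≤ δ → ‖K₁.comp K₀‖ ≤ δ →
        (∀ x, m₀ * ‖x‖ ≤ ‖x - K₀ x‖) →
        ‖W‖ ≤ M → (∀ a, ‖Z a‖ ≤ M) → M⁻¹ ≤ ‖W‖ →
        (∀ a, ‖K₀ (Z a)‖ ≤ δ) → (∀ a, ‖Z a - K₁ (Z a)‖ ≤ δ) → ‖K₁ W - p • W‖ ≤ δ →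
        (∀ a, |⟪Z a, W⟫| ≤ δ) → |⟪Z 0, Z 1⟫| ≤ δ → (∀ a, M⁻¹ ≤ ‖Z a‖) →
        (∀ x, ⟪x, W⟫ = 0 → (∀ a, ⟪x, Z a⟫ = 0) → ⟪K₁ x, x⟫ ≤ κ * ‖x‖ ^ 2) →
        ∀ (x : X) (c : Fin 2 → ℝ), m * (‖x‖ + ∑ a, |c a|)
          ≤ ‖x - K₀ x - K₁ x - K₂ x - ∑ a, c a • Z a‖ + ∑ a, |⟪Z a, x⟫| := by
  by_cases hM1 : M < 1
  · -- contradictory hypotheses
    refine ⟨1, 1, one_pos, one_pos, ?_⟩
    intro X _ _ _ K₀ K₁ K₂ W Z _ _ _ _ _ _ _ hW _ hW' _ _ _ _ _ _ _ x c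
    exfalso
    have h1 : 1 < M⁻¹ := (one_lt_inv₀ hM).2 hM1
    linarith
  push Not at hM1
  obtain ⟨η, hη⟩ : ∃ η : ℝ, η = min ((p - 1) / (2 * M ^ 2)) (1 - κ) := ⟨_, rfl⟩
  have hηp : 0 < η := by
    rw [hη]
    exact lt_min (div_pos (by linarith) (by positivity)) (by linarith)
  obtain ⟨δ₀, K, hδ₀, hK, hreal⟩ := lin_real hM1 hm₀ hηp
  refine ⟨min (min δ₀ (1 / (4 * M ^ 2))) ((p - 1) / (2 * M ^ 3)), K⁻¹, ?_, by positivity, ?_⟩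
  · exact lt_min (lt_min hδ₀ (by positivity)) (div_pos (by linarith) (by positivity))
  obtain ⟨δ, hδ⟩ : ∃ δ : ℝ, δ = min (min δ₀ (1 / (4 * M ^ 2))) ((p - 1) / (2 * M ^ 3)) := ⟨_, rfl⟩
  rw [← hδ]
  have hδp : 0 < δ := by
    rw [hδ]; exact lt_min (lt_min hδ₀ (by positivity)) (div_pos (by linarith) (by positivity))
  have hδ1 : δ ≤ δ₀ := by rw [hδ]; exact (min_le_left _ _).trans (min_le_left _ _)
  have hδ2 : δ ≤ 1 / (4 * M ^ 2) := by rw [hδ]; exact (min_le_left _ _).trans (min_le_right _ _)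
  have hδ3 : δ ≤ (p - 1) / (2 * M ^ 3) := by rw [hδ]; exact min_le_right _ _
  intro X _ _ _ K₀ K₁ K₂ W Z hs₀ hs₁ hK₀ hK₁ hK₂ hcomp hinv hW hZ hW' hK₀Z hK₁Z hK₁W hZW hZZ
    hZ' hgap x c
  simp only [Fin.sum_univ_two]
  have hMi : 0 < M⁻¹ := by positivity
  have hM2 : (M⁻¹) ^ 2 = 1 / M ^ 2 := by rw [inv_pow, one_div]
  have hδ2' : δ ≤ (M⁻¹) ^ 2 / 4 := by
    rw [hM2]; refine hδ2.trans (le_of_eq ?_); field_simp
  have hM2M : (M⁻¹) ^ 2 * M ^ 2 = 1 := by rw [hM2]; field_simp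
  have hK2x : ‖K₂ x‖ ≤ δ * ‖x‖ := (K₂.le_opNorm x).trans (by gcongr)
  -- step A
  have hK01 : ‖K₀ (K₁ x)‖ ≤ δ * ‖x‖ := by
    have e1 : ‖K₀ (K₁ x)‖ ^ 2 = ⟪x, K₁.comp K₀ (K₀ (K₁ x))⟫ := by
      rw [← real_inner_self_eq_norm_sq, hs₀ (K₁ x) (K₀ (K₁ x)), hs₁ x]
      rfl
    have e2 : ⟪x, K₁.comp K₀ (K₀ (K₁ x))⟫ ≤ ‖x‖ * (δ * ‖K₀ (K₁ x)‖) :=
      (real_inner_le_norm _ _).trans (by
        gcongr
        exact ((K₁.comp K₀).le_opNorm _).trans (by gcongr))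
    rcases (norm_nonneg (K₀ (K₁ x))).eq_or_lt with h0 | h0
    · rw [← h0]; positivity
    · have e3 : ‖K₀ (K₁ x)‖ * ‖K₀ (K₁ x)‖ ≤ (δ * ‖x‖) * ‖K₀ (K₁ x)‖ := by
        rw [← sq, e1]; refine e2.trans (le_of_eq (by ring))
      exact le_of_mul_le_mul_right e3 h0
  obtain ⟨r₁, hr₁⟩ : ∃ r₁ : X, r₁ = x - K₁ x - (c 0 • Z 0 + c 1 • Z 1) := ⟨_, rfl⟩
  obtain ⟨r, hr⟩ : ∃ r : X, r = x - K₀ x - K₁ x - K₂ x - (c 0 • Z 0 + c 1 • Z 1) := ⟨_, rfl⟩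
  rw [← hr]
  have hA : r₁ - K₀ r₁ = r + K₂ x + K₀ (K₁ x) + (c 0 • K₀ (Z 0) + c 1 • K₀ (Z 1)) := by
    rw [hr₁, hr]; simp only [map_sub, map_add, map_smul]; abel
  have hcK : ‖c 0 • K₀ (Z 0) + c 1 • K₀ (Z 1)‖ ≤ δ * (|c 0| + |c 1|) := by
    refine (norm_add_le _ _).trans ?_
    rw [norm_smul, norm_smul, Real.norm_eq_abs, Real.norm_eq_abs]
    have e1 : |c 0| * ‖K₀ (Z 0)‖ ≤ |c 0| * δ := by gcongr; exact hK₀Z 0
    have e2 : |c 1| * ‖K₀ (Z 1)‖ ≤ |c 1| * δ := by gcongr; exact hK₀Z 1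
    linarith only [e1, e2]
  have h1 : m₀ * ‖r₁‖ ≤ ‖r‖ + 2 * δ * ‖x‖ + δ * (|c 0| + |c 1|) := by
    refine (hinv r₁).trans ?_
    rw [hA]
    have e1 := norm_add_le (r + K₂ x + K₀ (K₁ x)) (c 0 • K₀ (Z 0) + c 1 • K₀ (Z 1))
    have e2 := norm_add_le (r + K₂ x) (K₀ (K₁ x))
    have e3 := norm_add_le r (K₂ x)
    linarith only [e1, e2, e3, hcK, hK01, hK2x]
  -- step B
  have hZsq : ∀ a, (M⁻¹) ^ 2 ≤ ⟪Z a, Z a⟫ := fun a => by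
    rw [real_inner_self_eq_norm_sq]; gcongr; exact hZ' a
  have hpair : ∀ b, |c 0 * ⟪Z 0, Z b⟫ + c 1 * ⟪Z 1, Z b⟫| ≤ δ * ‖x‖ + M * ‖r₁‖ := by
    intro b
    have e1 : c 0 * ⟪Z 0, Z b⟫ + c 1 * ⟪Z 1, Z b⟫ = ⟪x, Z b - K₁ (Z b)⟫ - ⟪r₁, Z b⟫ := by
      rw [hr₁, inner_sub_right, ← hs₁, inner_sub_left, inner_sub_left, inner_add_left,
        real_inner_smul_left, real_inner_smul_left]
      ring
    have e2 : |⟪x, Z b - K₁ (Z b)⟫| ≤ ‖x‖ * δ :=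
      (abs_real_inner_le_norm _ _).trans (by gcongr; exact hK₁Z b)
    have e3 : |⟪r₁, Z b⟫| ≤ ‖r₁‖ * M :=
      (abs_real_inner_le_norm _ _).trans (by gcongr; exact hZ b)
    rw [e1]
    refine (abs_sub _ _).trans ?_
    linarith only [e2, e3]
  have hZZ' : |⟪Z 1, Z 0⟫| ≤ δ := by rw [real_inner_comm]; exact hZZ
  have hsolve : ∀ (c₀ c₁ z w D : ℝ), (M⁻¹) ^ 2 ≤ z → |w| ≤ δ → |c₀ * z + c₁ * w| ≤ D →
      (M⁻¹) ^ 2 * |c₀| ≤ D + δ * |c₁| := by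
    intro c₀ c₁ z w D hz hw hD
    have e1 : |c₀ * z| ≤ |c₀ * z + c₁ * w| + |c₁ * w| := by
      have := abs_sub (c₀ * z + c₁ * w) (c₁ * w)
      simpa using this
    have hz0 : 0 ≤ z := le_trans (by positivity) hz
    rw [abs_mul, abs_mul, abs_of_nonneg hz0] at e1
    have e2 : |c₁| * |w| ≤ |c₁| * δ := by gcongr
    have e3 : (M⁻¹) ^ 2 * |c₀| ≤ z * |c₀| := by gcongr
    linarith only [e1, e2, e3, hD]
  have h2 : |c 0| + |c 1| ≤ 4 * M ^ 2 * δ * ‖x‖ + 4 * M ^ 3 * ‖r₁‖ := by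
    have e0 := hsolve (c 0) (c 1) _ _ _ (hZsq 0) hZZ' (hpair 0)
    have e1 := hsolve (c 1) (c 0) _ _ (δ * ‖x‖ + M * ‖r₁‖) (hZsq 1) hZZ
      (by rw [add_comm]; exact hpair 1)
    have e2 : δ * (|c 0| + |c 1|) ≤ (M⁻¹) ^ 2 / 4 * (|c 0| + |c 1|) := by gcongr
    have e3 : (M⁻¹) ^ 2 * (|c 0| + |c 1|) ≤ 4 * (δ * ‖x‖ + M * ‖r₁‖) := by
      have : 0 ≤ δ * ‖x‖ + M * ‖r₁‖ := by positivity
      linarith only [e0, e1, e2, this]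
    have e4 : M ^ 2 * ((M⁻¹) ^ 2 * (|c 0| + |c 1|)) ≤ M ^ 2 * (4 * (δ * ‖x‖ + M * ‖r₁‖)) := by
      gcongr
    have e5 : M ^ 2 * ((M⁻¹) ^ 2 * (|c 0| + |c 1|)) = |c 0| + |c 1| := by
      rw [← mul_assoc, mul_comm (M ^ 2), hM2M, one_mul]
    have e6 : M ^ 2 * (4 * (δ * ‖x‖ + M * ‖r₁‖)) = 4 * M ^ 2 * δ * ‖x‖ + 4 * M ^ 3 * ‖r₁‖ := by
      ring
    linarith only [e4, e5, e6]
  -- step C
  have h3 : ‖x - K₁ x‖ ≤ ‖r₁‖ + M * (|c 0| + |c 1|) := by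
    have e1 : x - K₁ x = r₁ + (c 0 • Z 0 + c 1 • Z 1) := by rw [hr₁]; abel
    rw [e1]
    refine (norm_add_le _ _).trans ?_
    gcongr
    refine (norm_add_le _ _).trans ?_
    rw [norm_smul, norm_smul, Real.norm_eq_abs, Real.norm_eq_abs]
    have e2 : |c 0| * ‖Z 0‖ ≤ |c 0| * M := by gcongr; exact hZ 0
    have e3 : |c 1| * ‖Z 1‖ ≤ |c 1| * M := by gcongr; exact hZ 1
    linarith only [e2, e3]
  -- step D
  have hfin : FiniteDimensional ℝ (Submodule.span ℝ ({W, Z 0, Z 1} : Set X)) :=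
    FiniteDimensional.span_of_finite ℝ (Set.toFinite _)
  obtain ⟨P, hP, x', hx', hxP⟩ :=
    (Submodule.span ℝ ({W, Z 0, Z 1} : Set X)).exists_add_mem_mem_orthogonal x
  obtain ⟨α, β₀, β₁, hPe⟩ := Submodule.mem_span_triple.1 hP
  have hoW : ⟪x', W⟫ = 0 := by
    have := (Submodule.mem_orthogonal' _ _).1 hx' W (Submodule.subset_span (by simp))
    exact this
  have hoZ : ∀ a, ⟪x', Z a⟫ = 0 := by
    intro a
    refine (Submodule.mem_orthogonal' _ _).1 hx' (Z a) (Submodule.subset_span ?_)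
    fin_cases a <;> simp
  obtain ⟨z, hz⟩ : ∃ z : X, z = β₀ • Z 0 + β₁ • Z 1 := ⟨_, rfl⟩
  have hx : x = α • W + z + x' := by rw [hxP, ← hPe, hz]; abel
  have hzx' : ⟪z, x'⟫ = 0 := by
    rw [hz, inner_add_left, real_inner_smul_left, real_inner_smul_left, real_inner_comm,
      hoZ, real_inner_comm, hoZ]; simp
  have hWx' : ⟪W, x'⟫ = 0 := by rw [real_inner_comm, hoW]
  have hPx' : ⟪P, x'⟫ = 0 := by
    rw [← hPe, inner_add_left, inner_add_left, real_inner_smul_left, real_inner_smul_left,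
      real_inner_smul_left, hWx', real_inner_comm, hoZ, real_inner_comm, hoZ]; simp
  have hx'P : ⟪x', P⟫ = 0 := by rw [real_inner_comm, hPx']
  have hpyth : ‖x‖ ^ 2 = ‖P‖ ^ 2 + ‖x'‖ ^ 2 := by
    rw [hxP, ← real_inner_self_eq_norm_sq, inner_add_left, inner_add_right, inner_add_right,
      hx'P, hPx', real_inner_self_eq_norm_sq, real_inner_self_eq_norm_sq]
    ring
  have hx'x : ‖x'‖ ≤ ‖x‖ := by
    have : ‖x'‖ ^ 2 ≤ ‖x‖ ^ 2 := by rw [hpyth]; linarith only [sq_nonneg ‖P‖]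
    exact (sq_le_sq₀ (norm_nonneg _) (norm_nonneg _)).1 this
  have hWsq : (M⁻¹) ^ 2 ≤ ⟪W, W⟫ := by
    rw [real_inner_self_eq_norm_sq]; gcongr
  have hPn : ‖P‖ ^ 2 = α ^ 2 * ⟪W, W⟫ + β₀ ^ 2 * ⟪Z 0, Z 0⟫ + β₁ ^ 2 * ⟪Z 1, Z 1⟫
      + 2 * (α * β₀) * ⟪Z 0, W⟫ + 2 * (α * β₁) * ⟪Z 1, W⟫ + 2 * (β₀ * β₁) * ⟪Z 0, Z 1⟫ := by
    rw [← real_inner_self_eq_norm_sq, ← hPe]
    simp only [inner_add_left, inner_add_right, real_inner_smul_left, real_inner_smul_right]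
    rw [real_inner_comm (Z 0) W, real_inner_comm (Z 1) W, real_inner_comm (Z 0) (Z 1)]
    ring
  have hcross : ∀ u v w : ℝ, |w| ≤ δ → -(δ * (u ^ 2 + v ^ 2)) ≤ 2 * (u * v) * w := by
    intro u v w hw
    have e1 : |2 * (u * v) * w| ≤ (u ^ 2 + v ^ 2) * δ := by
      rw [abs_mul]
      gcongr
      rw [abs_le]
      constructor <;> nlinarith only [sq_nonneg (u + v), sq_nonneg (u - v)]
    have := neg_abs_le (2 * (u * v) * w)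
    linarith only [this, e1]
  have hα : |α| ≤ 2 * M * ‖x‖ := by
    have e1 := hcross α β₀ _ (hZW 0)
    have e2 := hcross α β₁ _ (hZW 1)
    have e3 := hcross β₀ β₁ _ hZZ
    have e4 : (M⁻¹) ^ 2 * α ^ 2 ≤ ⟪W, W⟫ * α ^ 2 := by gcongr
    have e5 : (M⁻¹) ^ 2 * β₀ ^ 2 ≤ ⟪Z 0, Z 0⟫ * β₀ ^ 2 := by gcongr; exact hZsq 0
    have e6 : (M⁻¹) ^ 2 * β₁ ^ 2 ≤ ⟪Z 1, Z 1⟫ * β₁ ^ 2 := by gcongr; exact hZsq 1
    have e7 : δ * (α ^ 2 + β₀ ^ 2 + β₁ ^ 2) ≤ (M⁻¹) ^ 2 / 4 * (α ^ 2 + β₀ ^ 2 + β₁ ^ 2) := by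
      gcongr
    have e8 : 0 ≤ (M⁻¹) ^ 2 * (β₀ ^ 2 + β₁ ^ 2) := by positivity
    have e9 : (M⁻¹) ^ 2 * α ^ 2 ≤ 2 * ‖x‖ ^ 2 := by
      rw [hpyth, hPn]
      linarith only [e1, e2, e3, e4, e5, e6, e7, e8, sq_nonneg ‖x'‖]
    have e10 : α ^ 2 ≤ (2 * M * ‖x‖) ^ 2 := by
      have e11 : M ^ 2 * ((M⁻¹) ^ 2 * α ^ 2) ≤ M ^ 2 * (2 * ‖x‖ ^ 2) := by gcongr
      have e12 : M ^ 2 * ((M⁻¹) ^ 2 * α ^ 2) = α ^ 2 := by
        rw [← mul_assoc, mul_comm (M ^ 2), hM2M, one_mul]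
      have e13 : 0 ≤ M ^ 2 * ‖x‖ ^ 2 := by positivity
      nlinarith only [e11, e12, e13]
    exact abs_le_of_sq_le_sq e10 (by positivity)
  have h4 : |β₀| + |β₁| ≤ 2 * M ^ 2 * (|⟪Z 0, x⟫| + |⟪Z 1, x⟫| + 4 * M * δ * ‖x‖) := by
    have t0 : ⟪Z 0, x⟫ = β₀ * ⟪Z 0, Z 0⟫ + β₁ * ⟪Z 0, Z 1⟫ + α * ⟪Z 0, W⟫ := by
      have : ⟪Z 0, x'⟫ = 0 := by rw [real_inner_comm, hoZ]
      rw [hx, hz]
      simp only [inner_add_right, real_inner_smul_right, this]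
      ring
    have t1 : ⟪Z 1, x⟫ = β₁ * ⟪Z 1, Z 1⟫ + β₀ * ⟪Z 0, Z 1⟫ + α * ⟪Z 1, W⟫ := by
      have : ⟪Z 1, x'⟫ = 0 := by rw [real_inner_comm, hoZ]
      rw [hx, hz]
      simp only [inner_add_right, real_inner_smul_right, this]
      rw [real_inner_comm (Z 0) (Z 1)]
      ring
    have hαδ : ∀ a, |α * ⟪Z a, W⟫| ≤ 2 * M * ‖x‖ * δ := fun a => by
      rw [abs_mul]; exact mul_le_mul hα (hZW a) (abs_nonneg _) (by positivity)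
    have e0 := hsolve β₀ β₁ _ _ (|⟪Z 0, x⟫| + 2 * M * ‖x‖ * δ) (hZsq 0) hZZ (by
      have : β₀ * ⟪Z 0, Z 0⟫ + β₁ * ⟪Z 0, Z 1⟫ = ⟪Z 0, x⟫ - α * ⟪Z 0, W⟫ := by rw [t0]; ring
      rw [this]
      refine (abs_sub _ _).trans ?_
      gcongr
      exact hαδ 0)
    have e1 := hsolve β₁ β₀ _ _ (|⟪Z 1, x⟫| + 2 * M * ‖x‖ * δ) (hZsq 1) hZZ (by
      have : β₁ * ⟪Z 1, Z 1⟫ + β₀ * ⟪Z 0, Z 1⟫ = ⟪Z 1, x⟫ - α * ⟪Z 1, W⟫ := by rw [t1]; ring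
      rw [this]
      refine (abs_sub _ _).trans ?_
      gcongr
      exact hαδ 1)
    have e2 : δ * (|β₀| + |β₁|) ≤ (M⁻¹) ^ 2 / 4 * (|β₀| + |β₁|) := by gcongr
    have e3 : (M⁻¹) ^ 2 * (|β₀| + |β₁|) ≤ 2 * (|⟪Z 0, x⟫| + |⟪Z 1, x⟫| + 4 * M * δ * ‖x‖) := by
      have : 0 ≤ |⟪Z 0, x⟫| + |⟪Z 1, x⟫| + 4 * M * δ * ‖x‖ := by positivity
      linarith only [e0, e1, e2, this]
    have e4 : M ^ 2 * ((M⁻¹) ^ 2 * (|β₀| + |β₁|))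
        ≤ M ^ 2 * (2 * (|⟪Z 0, x⟫| + |⟪Z 1, x⟫| + 4 * M * δ * ‖x‖)) := by gcongr
    have e5 : M ^ 2 * ((M⁻¹) ^ 2 * (|β₀| + |β₁|)) = |β₀| + |β₁| := by
      rw [← mul_assoc, mul_comm (M ^ 2), hM2M, one_mul]
    linarith only [e4, e5]
  -- step E
  obtain ⟨b, hb⟩ : ∃ b : ℝ, b = |β₀| + |β₁| := ⟨_, rfl⟩
  have hb0 : 0 ≤ b := by rw [hb]; positivity
  have hzn : ‖z‖ ≤ M * b := by
    rw [hz, hb]
    refine (norm_add_le _ _).trans ?_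
    rw [norm_smul, norm_smul, Real.norm_eq_abs, Real.norm_eq_abs]
    have e2 : |β₀| * ‖Z 0‖ ≤ |β₀| * M := by gcongr; exact hZ 0
    have e3 : |β₁| * ‖Z 1‖ ≤ |β₁| * M := by gcongr; exact hZ 1
    linarith only [e2, e3]
  have hBz : ‖z - K₁ z‖ ≤ δ * b := by
    have e1 : z - K₁ z = β₀ • (Z 0 - K₁ (Z 0)) + β₁ • (Z 1 - K₁ (Z 1)) := by
      rw [hz]; simp only [map_add, map_smul, smul_sub]; abel
    rw [e1, hb]
    refine (norm_add_le _ _).trans ?_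
    rw [norm_smul, norm_smul, Real.norm_eq_abs, Real.norm_eq_abs]
    have e2 : |β₀| * ‖Z 0 - K₁ (Z 0)‖ ≤ |β₀| * δ := by gcongr; exact hK₁Z 0
    have e3 : |β₁| * ‖Z 1 - K₁ (Z 1)‖ ≤ |β₁| * δ := by gcongr; exact hK₁Z 1
    linarith only [e2, e3]
  obtain ⟨B, hB⟩ : ∃ B : X →L[ℝ] X, ∀ v, B v = v - K₁ v :=
    ⟨ContinuousLinearMap.id ℝ X - K₁, fun v => by simp⟩
  have hBs : ∀ u v, ⟪B u, v⟫ = ⟪u, B v⟫ := fun u v => by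
    rw [hB, hB, inner_sub_left, inner_sub_right, hs₁]
  have hform : ⟪B x, x - (2 * α) • W⟫
      = α ^ 2 * (-⟪B W, W⟫) + ⟪B z, z⟫ + 2 * ⟪B z, x'⟫ + ⟪B x', x'⟫ := by
    have e1 : x - (2 * α) • W = (-α) • W + z + x' := by
      rw [hx]; module
    rw [e1, hx]
    simp only [map_add, map_smul, inner_add_left, inner_add_right, real_inner_smul_left,
      real_inner_smul_right]
    have f1 : ⟪B z, W⟫ = ⟪B W, z⟫ := by rw [hBs, real_inner_comm]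
    have f2 : ⟪B x', W⟫ = ⟪B W, x'⟫ := by rw [hBs, real_inner_comm]
    have f3 : ⟪B x', z⟫ = ⟪B z, x'⟫ := by rw [hBs, real_inner_comm]
    rw [f1, f2, f3]
    ring
  have hform1 : ⟪B x, x - (2 * α) • W⟫ ≤ (1 + 4 * M ^ 2) * ‖x - K₁ x‖ * ‖x‖ := by
    refine (real_inner_le_norm _ _).trans ?_
    rw [hB]
    have e1 : ‖x - (2 * α) • W‖ ≤ ‖x‖ + 2 * (2 * M * ‖x‖) * M := by
      refine (norm_sub_le _ _).trans ?_
      rw [norm_smul, Real.norm_eq_abs, abs_mul, abs_of_pos (by norm_num : (0 : ℝ) < 2)]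
      gcongr
    calc ‖x - K₁ x‖ * ‖x - (2 * α) • W‖ ≤ ‖x - K₁ x‖ * (‖x‖ + 2 * (2 * M * ‖x‖) * M) := by gcongr
      _ = _ := by ring
  have hform2 : (p - 1) / (2 * M ^ 2) ≤ -⟪B W, W⟫ := by
    have e1 : -⟪B W, W⟫ = (p - 1) * ⟪W, W⟫ + ⟪K₁ W - p • W, W⟫ := by
      rw [hB, inner_sub_left, inner_sub_left, real_inner_smul_left]; ring
    have e2 : |⟪K₁ W - p • W, W⟫| ≤ δ * M :=
      (abs_real_inner_le_norm _ _).trans (by gcongr)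
    have e3 := neg_abs_le ⟪K₁ W - p • W, W⟫
    have e4 : (p - 1) * (M⁻¹) ^ 2 ≤ (p - 1) * ⟪W, W⟫ := by
      have : 0 ≤ p - 1 := by linarith
      gcongr
    have e5 : δ * M ≤ (p - 1) / (2 * M ^ 3) * M := by gcongr
    have e6 : (p - 1) / (2 * M ^ 3) * M = (p - 1) / (2 * M ^ 2) := by field_simp
    have e7 : (p - 1) * (M⁻¹) ^ 2 = (p - 1) / (2 * M ^ 2) + (p - 1) / (2 * M ^ 2) := by
      rw [hM2]; field_simp; ring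
    rw [e1]
    linarith only [e2, e3, e4, e5, e6, e7]
  have hform3 : (1 - κ) * ‖x'‖ ^ 2 ≤ ⟪B x', x'⟫ := by
    have e1 := hgap x' hoW hoZ
    rw [hB, inner_sub_left, real_inner_self_eq_norm_sq]
    linarith only [e1]
  have hform4 : -(δ * M * b ^ 2) ≤ ⟪B z, z⟫ := by
    have e1 : |⟪B z, z⟫| ≤ (δ * b) * (M * b) :=
      (abs_real_inner_le_norm _ _).trans (by rw [hB]; gcongr)
    have e2 := neg_abs_le ⟪B z, z⟫
    linarith only [e1, e2]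
  have hform5 : -(2 * δ * b * ‖x‖) ≤ 2 * ⟪B z, x'⟫ := by
    have e1 : |⟪B z, x'⟫| ≤ (δ * b) * ‖x‖ :=
      (abs_real_inner_le_norm _ _).trans (by rw [hB]; gcongr)
    have e2 := neg_abs_le ⟪B z, x'⟫
    linarith only [e1, e2]
  have h5 : η * (|α| ^ 2 + ‖x'‖ ^ 2)
      ≤ (1 + 4 * M ^ 2) * ‖x - K₁ x‖ * ‖x‖ + δ * M * b ^ 2 + 2 * δ * b * ‖x‖ := by
    have e1 : η ≤ (p - 1) / (2 * M ^ 2) := by rw [hη]; exact min_le_left _ _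
    have e2 : η ≤ 1 - κ := by rw [hη]; exact min_le_right _ _
    have e3 : η * α ^ 2 ≤ -⟪B W, W⟫ * α ^ 2 := by
      gcongr; exact e1.trans hform2
    have e4 : η * ‖x'‖ ^ 2 ≤ (1 - κ) * ‖x'‖ ^ 2 := by gcongr
    rw [sq_abs]
    linarith only [e3, e4, hform, hform1, hform3, hform4, hform5]
  -- step F
  have h6 : ‖x‖ ≤ M * |α| + M * b + ‖x'‖ := by
    have e1 : ‖α • W‖ ≤ M * |α| := by
      rw [norm_smul, Real.norm_eq_abs, mul_comm]; gcongr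
    have e2 := norm_add_le (α • W + z) x'
    have e3 := norm_add_le (α • W) z
    rw [← hx] at e2
    linarith only [e1, e2, e3, hzn]
  have hfinal := hreal δ ‖x‖ (|c 0| + |c 1|) ‖r‖ (|⟪Z 0, x⟫| + |⟪Z 1, x⟫|) ‖r₁‖ ‖x - K₁ x‖ b |α|
    ‖x'‖ hδp.le hδ1 (norm_nonneg _) (by positivity) (norm_nonneg _) (by positivity)
    (norm_nonneg _) (norm_nonneg _) hb0 (abs_nonneg _) (norm_nonneg _) h1 h2 h3
    (by rw [hb]; exact h4) h5 h6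
  rw [inv_mul_le_iff₀ hK]
  exact hfinal

end Pool.Agent.helper13.BN
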