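import Pool.Agent.helper69.BN.HilSA

set_option autoImplicit false
open MeasureTheory Filter Topology Set Metric
open scoped ContDiff Gradient RealInnerProductSpace ENNReal

noncomputable section
namespace Pool.Agent.helper13.BN

section aux
variable {X : Type} [NormedAddCommGroup X] [InnerProductSpace ℝ X]

theorem taylor_g {g : X → X} {A : X → X →L[ℝ] X} {R₀ M ρ : ℝ} (hM : 0 ≤ M)
    (hg : ∀ u, HasFDerivAt g (A u) u)
    (hA : ∀ u u', ‖u‖ ≤ R₀ → ‖u'‖ ≤ R₀ → ‖A u - A u'‖ ≤ M * ‖u - u'‖)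
    {v u u' : X} (hv : ‖v‖ ≤ R₀) (hu : ‖u‖ ≤ R₀) (hu' : ‖u'‖ ≤ R₀)
    (huv : ‖u - v‖ ≤ ρ) (hu'v : ‖u' - v‖ ≤ ρ) :
    ‖g u' - g u - A v (u' - u)‖ ≤ M * ρ * ‖u' - u‖ := by
  have hconv : Convex ℝ (closedBall v ρ ∩ closedBall (0 : X) R₀) :=
    (convex_closedBall v ρ).inter (convex_closedBall 0 R₀)
  refine hconv.norm_image_sub_le_of_norm_hasFDerivWithin_le' (f' := A)
    (fun x _ => (hg x).hasFDerivWithinAt) ?_ ?_ ?_
  · rintro x ⟨hx1, hx2⟩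
    rw [mem_closedBall, dist_eq_norm] at hx1
    rw [mem_closedBall, dist_zero_right] at hx2
    exact (hA x v hx2 hv).trans (by gcongr)
  · exact ⟨by rw [mem_closedBall, dist_eq_norm]; exact huv,
      by rw [mem_closedBall, dist_zero_right]; exact hu⟩
  · exact ⟨by rw [mem_closedBall, dist_eq_norm]; exact hu'v,
      by rw [mem_closedBall, dist_zero_right]; exact hu'⟩

theorem mvt_J {J : X → ℝ} {g : X → X}
    (hJ : ∀ u h : X, HasDerivAt (fun t : ℝ => J (u + t • h)) ⟪g u, h⟫ 0) (w h : X) :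
    ∃ θ ∈ Ioo (0 : ℝ) 1, J (w + h) - J w = ⟪g (w + θ • h), h⟫ := by
  have hd : ∀ t : ℝ, HasDerivAt (fun t : ℝ => J (w + t • h)) ⟪g (w + t • h), h⟫ t := by
    intro t
    have h1 := hJ (w + t • h) h
    have h2 : HasDerivAt (fun s : ℝ => s - t) 1 t := by
      simpa using (hasDerivAt_id t).sub_const t
    have h3 : HasDerivAt (fun s : ℝ => J ((w + t • h) + s • h)) ⟪g (w + t • h), h⟫ (t - t) := by
      rw [sub_self]; exact h1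
    have h4 : HasDerivAt ((fun s : ℝ => J ((w + t • h) + s • h)) ∘ (fun s : ℝ => s - t))
        (⟪g (w + t • h), h⟫ * 1) t :=
      HasDerivAt.comp (h₂ := fun s : ℝ => J ((w + t • h) + s • h)) (h := fun s : ℝ => s - t) t h3 h2
    have h5 : (fun s : ℝ => J ((w + t • h) + s • h)) ∘ (fun s : ℝ => s - t)
        = fun s : ℝ => J (w + s • h) := by
      funext s
      simp only [Function.comp]
      congr 1
      rw [add_assoc, ← add_smul]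
      congr 2
      ring
    rw [h5, mul_one] at h4
    exact h4
  obtain ⟨θ, hθ, h1⟩ := exists_hasDerivAt_eq_slope (fun t : ℝ => J (w + t • h))
    (fun t => ⟪g (w + t • h), h⟫) (zero_lt_one)
    (continuousOn_of_forall_continuousAt fun t _ => (hd t).continuousAt) (fun t _ => hd t)
  refine ⟨θ, hθ, ?_⟩
  simp only [one_smul, zero_smul, add_zero, sub_zero, div_one] at h1
  exact h1.symm

end aux

section fix
variable {X : Type} [NormedAddCommGroup X] [InnerProductSpace ℝ X] [CompleteSpace X]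

/-- the fixed point for one parameter value -/
theorem fix_exists {g : X → X} {A : X → X →L[ℝ] X} {R₀ M m d : ℝ} (hM : 0 < M) (hm : 0 < m)
    (hd : 0 ≤ d)
    (hg : ∀ u, HasFDerivAt g (A u) u) (hs : ∀ u x y, ⟪A u x, y⟫ = ⟪x, A u y⟫)
    (hA : ∀ u u', ‖u‖ ≤ R₀ → ‖u'‖ ≤ R₀ → ‖A u - A u'‖ ≤ M * ‖u - u'‖)
    {U : X} {Z : Fin 2 → X} (hU : ‖U‖ ≤ R₀ / 2)
    (hb : ∀ (x : X) (c : Fin 2 → ℝ), m * (‖x‖ + ∑ a, |c a|)
          ≤ ‖A U x - ∑ a, c a • Z a‖ + ∑ a, |⟪Z a, x⟫|)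
    (hgU : ‖g U‖ ≤ d) (h1 : M * (2 * d / m) ≤ m / 2) (h2 : 2 * d / m ≤ R₀ / 2) :
    ∃ (φ : X) (c : Fin 2 → ℝ), ‖φ‖ ≤ 2 * d / m ∧ (∑ a, |c a|) ≤ 2 * d / m ∧
      g (U + φ) = ∑ a, c a • Z a ∧ ∀ a, ⟪Z a, φ⟫ = 0 := by
  obtain ⟨ρ, hρ⟩ : ∃ ρ : ℝ, ρ = 2 * d / m := ⟨_, rfl⟩
  rw [← hρ] at h1 h2 ⊢
  have hρ0 : 0 ≤ ρ := by rw [hρ]; positivity
  have hmρ : m * ρ = 2 * d := by rw [hρ]; field_simp
  have hU' : ‖U‖ ≤ R₀ := by linarith [norm_nonneg U]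
  -- solution operator
  have hsol : ∀ y : X, ∃ z : X × (Fin 2 → ℝ), A U z.1 - ∑ a, z.2 a • Z a = y ∧
      ∀ a, ⟪Z a, z.1⟫ = 0 := fun y => by
    obtain ⟨z, hz, -⟩ := aug_of_symm (hs U) Z hm hb y (fun _ => 0)
    exact ⟨z, hz.1, hz.2⟩
  choose S hS1 hS2 using hsol
  have hS3 : ∀ y y', m * (‖(S y).1 - (S y').1‖ + ∑ a, |(S y).2 a - (S y').2 a|) ≤ ‖y - y'‖ := by
    intro y y'
    have h3 := hb ((S y).1 - (S y').1) (fun a => (S y).2 a - (S y').2 a)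
    have h4 : A U ((S y).1 - (S y').1) - ∑ a, ((S y).2 a - (S y').2 a) • Z a = y - y' := by
      conv_rhs => rw [← hS1 y, ← hS1 y']
      simp only [map_sub, sub_smul, Finset.sum_sub_distrib]
      abel
    have h5 : ∑ a, |⟪Z a, (S y).1 - (S y').1⟫| = 0 := by
      apply Finset.sum_eq_zero
      intro a _
      rw [inner_sub_right, hS2, hS2, sub_self, abs_zero]
    rw [h4, h5, add_zero] at h3
    exact h3
  have hS4 : ∀ y, m * (‖(S y).1‖ + ∑ a, |(S y).2 a|) ≤ ‖y‖ := by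
    intro y
    have h3 := hb (S y).1 (S y).2
    have h5 : ∑ a, |⟪Z a, (S y).1⟫| = 0 := by
      apply Finset.sum_eq_zero
      intro a _
      rw [hS2, abs_zero]
    rw [hS1, h5, add_zero] at h3
    exact h3
  let N : X → X := fun φ => A U φ - g (U + φ)
  let F : X → X := fun φ => (S (N φ)).1
  have hUφ : ∀ φ : X, ‖φ‖ ≤ ρ → ‖U + φ‖ ≤ R₀ := fun φ hφ =>
    (norm_add_le _ _).trans (by linarith)
  have hN : ∀ φ ψ : X, ‖φ‖ ≤ ρ → ‖ψ‖ ≤ ρ → ‖N φ - N ψ‖ ≤ M * ρ * ‖φ - ψ‖ := by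
    intro φ ψ hφ hψ
    have h3 := taylor_g hM.le hg hA (ρ := ρ) hU' (hUφ ψ hψ) (hUφ φ hφ) (by simpa using hψ)
      (by simpa using hφ)
    have h4 : N φ - N ψ = -(g (U + φ) - g (U + ψ) - A U ((U + φ) - (U + ψ))) := by
      simp only [N, map_sub, map_add]; abel
    have h5 : (U + φ) - (U + ψ) = φ - ψ := by abel
    rw [h4, norm_neg]
    rw [h5] at h3 ⊢
    exact h3
  have hN0 : ∀ φ : X, ‖φ‖ ≤ ρ → ‖N φ‖ ≤ 2 * d := by
    intro φ hφ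
    have h3 := hN φ 0 hφ (by simpa using hρ0)
    have h4 : N 0 = - g U := by simp [N]
    have h5 : ‖N φ‖ ≤ ‖N φ - N 0‖ + ‖N 0‖ := by
      have := norm_add_le (N φ - N 0) (N 0)
      simpa using this
    rw [h4, norm_neg] at h5
    rw [sub_zero] at h3
    have h6 : M * ρ * ‖φ‖ ≤ m / 2 * ρ := by gcongr
    rw [h4] at h3
    linarith
  have hmaps : MapsTo F (closedBall 0 ρ) (closedBall 0 ρ) := by
    intro φ hφ
    rw [mem_closedBall, dist_zero_right] at hφ ⊢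
    have h3 := (hS4 (N φ)).trans (hN0 φ hφ)
    have h4 : 0 ≤ ∑ a, |(S (N φ)).2 a| := Finset.sum_nonneg fun a _ => abs_nonneg _
    have h5 : m * ‖(S (N φ)).1‖ ≤ m * ρ := by rw [hmρ]; nlinarith
    exact le_of_mul_le_mul_left h5 hm
  have hcontr : ContractingWith (1 / 2) (hmaps.restrict F (closedBall 0 ρ) (closedBall 0 ρ)) := by
    refine ⟨?_, LipschitzWith.of_dist_le_mul ?_⟩
    · rw [← NNReal.coe_lt_coe]; norm_num
    · rintro ⟨φ, hφ⟩ ⟨ψ, hψ⟩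
      rw [mem_closedBall, dist_zero_right] at hφ hψ
      rw [Subtype.dist_eq, Subtype.dist_eq]
      simp only [MapsTo.val_restrict_apply]
      rw [dist_eq_norm, dist_eq_norm]
      have h3 := (hS3 (N φ) (N ψ)).trans (hN φ ψ hφ hψ)
      have h4 : 0 ≤ ∑ a, |(S (N φ)).2 a - (S (N ψ)).2 a| := Finset.sum_nonneg fun a _ => abs_nonneg _
      have h5 : M * ρ * ‖φ - ψ‖ ≤ m / 2 * ‖φ - ψ‖ := by gcongr
      have h6 : m * ‖F φ - F ψ‖ ≤ m * (1 / 2 * ‖φ - ψ‖) := by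
        have : m * ‖(S (N φ)).1 - (S (N ψ)).1‖ ≤ m / 2 * ‖φ - ψ‖ := by nlinarith
        calc m * ‖F φ - F ψ‖ ≤ m / 2 * ‖φ - ψ‖ := this
          _ = _ := by ring
      have h7 := le_of_mul_le_mul_left h6 hm
      simpa using h7
  obtain ⟨φ, hφ, hfix, -⟩ := ContractingWith.exists_fixedPoint' isClosed_closedBall.isComplete
    hmaps hcontr (x := 0) (by rw [mem_closedBall, dist_self]; exact hρ0) (edist_ne_top _ _)
  rw [mem_closedBall, dist_zero_right] at hφ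
  have hfix' : (S (N φ)).1 = φ := hfix
  refine ⟨φ, (S (N φ)).2, hφ, ?_, ?_, ?_⟩
  · have h3 := (hS4 (N φ)).trans (hN0 φ hφ)
    have h4 : 0 ≤ ‖(S (N φ)).1‖ := norm_nonneg _
    have h5 : m * ∑ a, |(S (N φ)).2 a| ≤ m * ρ := by rw [hmρ]; nlinarith
    exact le_of_mul_le_mul_left h5 hm
  · have h3 := hS1 (N φ)
    rw [hfix'] at h3
    simp only [N] at h3
    have : ∑ a, (S (A U φ - g (U + φ))).2 a • Z a = g (U + φ) := by
      have h4 := sub_right_injective h3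
      exact h4
    exact this.symm
  · intro a
    have := hS2 (N φ) a
    rwa [hfix'] at this

end fix

section lip
variable {X : Type} [NormedAddCommGroup X] [InnerProductSpace ℝ X]

theorem eventually_lip {E : Type} [NormedAddCommGroup E] [NormedSpace ℝ E] {f : E → X}
    {f' : E →L[ℝ] X} {q₁ : E} (hf : HasFDerivAt f f' q₁) :
    ∃ L : ℝ, 0 < L ∧ ∀ᶠ q in 𝓝 q₁, ‖f q - f q₁‖ ≤ L * ‖q - q₁‖ := by
  obtain ⟨L, hL, h⟩ := hf.isBigO_sub.exists_pos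
  exact ⟨L, hL, h.bound⟩

/-- the solution depends Lipschitz continuously on the parameter -/
theorem lip_phi {g : X → X} {A : X → X →L[ℝ] X} {R₀ M m ρ : ℝ} (hM : 0 < M) (hm : 0 < m)
    (hρ0 : 0 ≤ ρ)
    (hg : ∀ u, HasFDerivAt g (A u) u)
    (hA : ∀ u u', ‖u‖ ≤ R₀ → ‖u'‖ ≤ R₀ → ‖A u - A u'‖ ≤ M * ‖u - u'‖)
    {Q : Set (ℝ × ℝ)} (hQ : IsOpen Q) {U : ℝ × ℝ → X} {Z : ℝ × ℝ → Fin 2 → X}
    {φ : ℝ × ℝ → X} {c : ℝ × ℝ → Fin 2 → ℝ}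
    (hU : ∀ q ∈ Q, ‖U q‖ ≤ R₀ / 2)
    (hφ : ∀ q ∈ Q, ‖φ q‖ ≤ ρ) (hc : ∀ q ∈ Q, (∑ a, |c q a|) ≤ ρ)
    (hgφ : ∀ q ∈ Q, g (U q + φ q) = ∑ a, c q a • Z q a)
    (hZφ : ∀ q ∈ Q, ∀ a, ⟪Z q a, φ q⟫ = 0)
    (h1 : M * ρ ≤ m / 2) (h2 : ρ ≤ R₀ / 2)
    {q₁ : ℝ × ℝ} (hq₁ : q₁ ∈ Q)
    (hb : ∀ (x : X) (c : Fin 2 → ℝ), m * (‖x‖ + ∑ a, |c a|)
          ≤ ‖A (U q₁) x - ∑ a, c a • Z q₁ a‖ + ∑ a, |⟪Z q₁ a, x⟫|)
    {U' : (ℝ × ℝ) →L[ℝ] X} (hU' : HasFDerivAt U U' q₁)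
    {Z' : Fin 2 → (ℝ × ℝ) →L[ℝ] X} (hZ' : ∀ a, HasFDerivAt (fun q => Z q a) (Z' a) q₁) :
    ∃ L : ℝ, 0 < L ∧ ∀ᶠ q in 𝓝 q₁, ‖φ q - φ q₁‖ ≤ L * ‖q - q₁‖ := by
  obtain ⟨LU, hLU, hU1⟩ := eventually_lip hU'
  obtain ⟨L0, hL0, hZ0⟩ := eventually_lip (hZ' 0)
  obtain ⟨L1, hL1, hZ1⟩ := eventually_lip (hZ' 1)
  have hUc : ∀ᶠ q in 𝓝 q₁, ‖U q - U q₁‖ ≤ m / (4 * M) := by
    have h3 : Tendsto (fun q => ‖U q - U q₁‖) (𝓝 q₁) (𝓝 0) := by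
      have h4 : Tendsto (fun q => U q - U q₁) (𝓝 q₁) (𝓝 (U q₁ - U q₁)) :=
        (hU'.continuousAt.tendsto).sub_const _
      rw [sub_self] at h4
      simpa using h4.norm
    exact h3.eventually_le_const (by positivity)
  obtain ⟨K, hK⟩ : ∃ K : ℝ, K = ‖A (U q₁)‖ + m := ⟨_, rfl⟩
  have hK0 : 0 < K := by rw [hK]; positivity
  refine ⟨4 / m * (K * LU + 2 * ρ * (L0 + L1) + 1), by positivity, ?_⟩
  filter_upwards [hU1, hZ0, hZ1, hUc, hQ.mem_nhds hq₁] with q hqU hqZ0 hqZ1 hqc hqQ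
  obtain ⟨u, hu⟩ : ∃ u : ℝ, u = ‖U q - U q₁‖ := ⟨_, rfl⟩
  obtain ⟨f, hf⟩ : ∃ f : ℝ, f = ‖φ q - φ q₁‖ := ⟨_, rfl⟩
  have hu0 : 0 ≤ u := by rw [hu]; positivity
  have hf0 : 0 ≤ f := by rw [hf]; positivity
  rw [← hu] at hqU hqc
  rw [← hf]
  have hMu : M * u ≤ m / 4 := by
    have : M * u ≤ M * (m / (4 * M)) := by gcongr
    refine this.trans (le_of_eq ?_); field_simp
  have hR : ‖U q₁‖ ≤ R₀ := by linarith [hU q₁ hq₁, norm_nonneg (U q₁)]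
  have hRq : ‖U q + φ q‖ ≤ R₀ := (norm_add_le _ _).trans (by linarith [hU q hqQ, hφ q hqQ])
  have hRq₁ : ‖U q₁ + φ q₁‖ ≤ R₀ :=
    (norm_add_le _ _).trans (by linarith [hU q₁ hq₁, hφ q₁ hq₁])
  have ht := taylor_g hM.le hg hA (v := U q₁) (u := U q₁ + φ q₁) (u' := U q + φ q) (ρ := ρ + u)
    hR hRq₁ hRq (by
      have : U q₁ + φ q₁ - U q₁ = φ q₁ := by abel
      rw [this]; linarith [hφ q₁ hq₁]) (by
      have : U q + φ q - U q₁ = φ q + (U q - U q₁) := by abel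
      rw [this]; refine (norm_add_le _ _).trans ?_
      rw [← hu]; linarith [hφ q hqQ])
  have hdw : ‖(U q + φ q) - (U q₁ + φ q₁)‖ ≤ u + f := by
    have : (U q + φ q) - (U q₁ + φ q₁) = (U q - U q₁) + (φ q - φ q₁) := by abel
    rw [this, hu, hf]; exact norm_add_le _ _
  have hmain := hb (φ q - φ q₁) (fun a => c q a - c q₁ a)
  have hid : A (U q₁) (φ q - φ q₁) - ∑ a, (c q a - c q₁ a) • Z q₁ a
      = -(g (U q + φ q) - g (U q₁ + φ q₁) - A (U q₁) ((U q + φ q) - (U q₁ + φ q₁)))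
        - A (U q₁) (U q - U q₁) + ∑ a, c q a • (Z q a - Z q₁ a) := by
    rw [hgφ q hqQ, hgφ q₁ hq₁]
    simp only [map_sub, map_add, sub_smul, smul_sub, Finset.sum_sub_distrib]
    abel
  have hca : ∀ a, |c q a| ≤ ρ := fun a =>
    (Finset.single_le_sum (f := fun a => |c q a|) (fun a _ => abs_nonneg _)
      (Finset.mem_univ a)).trans (hc q hqQ)
  have hZn : ‖∑ a, c q a • (Z q a - Z q₁ a)‖ ≤ ρ * (L0 + L1) * ‖q - q₁‖ := by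
    rw [Fin.sum_univ_two]
    refine (norm_add_le _ _).trans ?_
    rw [norm_smul, norm_smul, Real.norm_eq_abs, Real.norm_eq_abs]
    have e0 : |c q 0| * ‖Z q 0 - Z q₁ 0‖ ≤ ρ * (L0 * ‖q - q₁‖) := by
      gcongr; exact hca 0
    have e1 : |c q 1| * ‖Z q 1 - Z q₁ 1‖ ≤ ρ * (L1 * ‖q - q₁‖) := by
      gcongr; exact hca 1
    linarith
  have hin : ∀ a, ⟪Z q₁ a, φ q - φ q₁⟫ = - ⟪Z q a - Z q₁ a, φ q⟫ := by
    intro a
    rw [inner_sub_right, inner_sub_left, hZφ q hqQ, hZφ q₁ hq₁]; ring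
  have hinn : ∑ a, |⟪Z q₁ a, φ q - φ q₁⟫| ≤ ρ * (L0 + L1) * ‖q - q₁‖ := by
    rw [Fin.sum_univ_two, hin, hin, abs_neg, abs_neg]
    have e0 : |⟪Z q 0 - Z q₁ 0, φ q⟫| ≤ (L0 * ‖q - q₁‖) * ρ :=
      (abs_real_inner_le_norm _ _).trans (by gcongr; exact hφ q hqQ)
    have e1 : |⟪Z q 1 - Z q₁ 1, φ q⟫| ≤ (L1 * ‖q - q₁‖) * ρ :=
      (abs_real_inner_le_norm _ _).trans (by gcongr; exact hφ q hqQ)
    linarith
  have hAU : ‖A (U q₁) (U q - U q₁)‖ ≤ ‖A (U q₁)‖ * u := by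
    rw [hu]; exact (A (U q₁)).le_opNorm _
  have hnorm : ‖A (U q₁) (φ q - φ q₁) - ∑ a, (c q a - c q₁ a) • Z q₁ a‖
      ≤ M * (ρ + u) * (u + f) + ‖A (U q₁)‖ * u + ρ * (L0 + L1) * ‖q - q₁‖ := by
    rw [hid]
    refine (norm_add_le _ _).trans ?_
    refine add_le_add ((norm_sub_le _ _).trans (add_le_add ?_ hAU)) hZn
    rw [norm_neg]
    refine ht.trans ?_
    gcongr
  have hcs : 0 ≤ ∑ a, |c q a - c q₁ a| := Finset.sum_nonneg fun a _ => abs_nonneg _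
  have hMρu : M * (ρ + u) ≤ 3 * m / 4 := by
    have : M * (ρ + u) = M * ρ + M * u := by ring
    rw [this]; linarith
  have hMρu' : M * (ρ + u) * (u + f) ≤ 3 * m / 4 * (u + f) := by gcongr
  have hfin : m * f ≤ 3 * m / 4 * (u + f) + ‖A (U q₁)‖ * u + 2 * (ρ * (L0 + L1) * ‖q - q₁‖) := by
    have e1 : m * (‖φ q - φ q₁‖ + ∑ a, |c q a - c q₁ a|)
        = m * f + m * ∑ a, |c q a - c q₁ a| := by rw [hf]; ring
    have e2 : 0 ≤ m * ∑ a, |c q a - c q₁ a| := by positivity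
    have e3 : m * (‖φ q - φ q₁‖ + ∑ a, |c q a - c q₁ a|)
      ≤ ‖A (U q₁) (φ q - φ q₁) - ∑ a, (c q a - c q₁ a) • Z q₁ a‖
        + ∑ a, |⟪Z q₁ a, φ q - φ q₁⟫| := hmain
    linarith only [e1, e2, e3, hnorm, hinn, hMρu']
  have hfin2 : m / 4 * f ≤ (K * LU + 2 * ρ * (L0 + L1) + 1) * ‖q - q₁‖ := by
    have e1 : K * u ≤ K * (LU * ‖q - q₁‖) := by gcongr
    have e2 : K * u = ‖A (U q₁)‖ * u + m * u := by rw [hK]; ring
    have e3 : 0 ≤ m * u := by positivity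
    have e4 : (0 : ℝ) ≤ ‖q - q₁‖ := norm_nonneg _
    linarith only [hfin, e1, e2, e3, e4]
  have e5 : f = 4 / m * (m / 4 * f) := by field_simp
  rw [e5, mul_assoc (4 / m)]
  gcongr

/-- derivative of the reduced functional -/
theorem deriv_J {J : X → ℝ} {g : X → X}
    (hJ : ∀ u h : X, HasDerivAt (fun t : ℝ => J (u + t • h)) ⟪g u, h⟫ 0)
    {Q : Set (ℝ × ℝ)} (hQ : IsOpen Q) {U : ℝ × ℝ → X} {Z : ℝ × ℝ → Fin 2 → X}
    {φ : ℝ × ℝ → X} {c : Fin 2 → ℝ}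
    {q₁ : ℝ × ℝ} (hq₁ : q₁ ∈ Q)
    (hg : ContinuousAt g (U q₁ + φ q₁))
    (hgφ : g (U q₁ + φ q₁) = ∑ a, c a • Z q₁ a)
    (hZφ : ∀ q ∈ Q, ∀ a, ⟪Z q a, φ q⟫ = 0)
    {U' : (ℝ × ℝ) →L[ℝ] X} (hU' : HasFDerivAt U U' q₁)
    {Z' : Fin 2 → (ℝ × ℝ) →L[ℝ] X} (hZ' : ∀ a, HasFDerivAt (fun q => Z q a) (Z' a) q₁)
    {L : ℝ} (hL : 0 < L) (hlip : ∀ᶠ q in 𝓝 q₁, ‖φ q - φ q₁‖ ≤ L * ‖q - q₁‖) :
    ∃ ℓ : (ℝ × ℝ) →L[ℝ] ℝ, HasFDerivAt (fun q => J (U q + φ q)) ℓ q₁ ∧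
      ∀ h, ℓ h = ⟪g (U q₁ + φ q₁), U' h⟫ - ∑ a, c a * ⟪Z' a h, φ q₁⟫ := by
  obtain ⟨w₁, hw₁⟩ : ∃ w₁ : X, w₁ = U q₁ + φ q₁ := ⟨_, rfl⟩
  obtain ⟨φ₁, hφ₁⟩ : ∃ φ₁ : X, φ₁ = φ q₁ := ⟨_, rfl⟩
  rw [← hw₁] at hg hgφ
  rw [← hw₁, ← hφ₁]
  rw [← hφ₁] at hlip
  let ℓ : (ℝ × ℝ) →L[ℝ] ℝ := (innerSL ℝ (g w₁)).comp U'
    - ((c 0) • ((innerSL ℝ φ₁).comp (Z' 0)) + (c 1) • ((innerSL ℝ φ₁).comp (Z' 1)))
  have hℓ : ∀ h, ℓ h = ⟪g w₁, U' h⟫ - ∑ a, c a * ⟪Z' a h, φ₁⟫ := by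
    intro h
    rw [Fin.sum_univ_two, real_inner_comm φ₁ (Z' 0 h), real_inner_comm φ₁ (Z' 1 h)]
    simp [ℓ]
  refine ⟨ℓ, ?_, hℓ⟩
  let F : ℝ × ℝ → ℝ := fun q => ⟪g w₁, U q⟫ - (c 0 * ⟪φ₁, Z q 0⟫ + c 1 * ⟪φ₁, Z q 1⟫)
  have hF : HasFDerivAt F ℓ q₁ := by
    have e1 : HasFDerivAt (fun q => ⟪g w₁, U q⟫) ((innerSL ℝ (g w₁)).comp U') q₁ :=
      (innerSL ℝ (g w₁)).hasFDerivAt.comp q₁ hU'
    have e2 : ∀ a, HasFDerivAt (fun q => ⟪φ₁, Z q a⟫) ((innerSL ℝ φ₁).comp (Z' a)) q₁ := fun a =>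
      (innerSL ℝ φ₁).hasFDerivAt.comp q₁ (hZ' a)
    exact e1.sub (((e2 0).const_mul (c 0)).add ((e2 1).const_mul (c 1)))
  have hR : HasFDerivAt (fun q => J (U q + φ q) - F q) (0 : (ℝ × ℝ) →L[ℝ] ℝ) q₁ := by
    rw [hasFDerivAt_iff_isLittleO, Asymptotics.isLittleO_iff]
    intro ε hε
    obtain ⟨LU, hLU, hU1⟩ := eventually_lip hU'
    obtain ⟨L0, hL0, hZ0⟩ := eventually_lip (hZ' 0)
    obtain ⟨L1, hL1, hZ1⟩ := eventually_lip (hZ' 1)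
    obtain ⟨D, hD⟩ : ∃ D : ℝ, D = LU + L := ⟨_, rfl⟩
    have hD0 : 0 < D := by rw [hD]; positivity
    obtain ⟨δ₁, hδ₁, hgc⟩ := Metric.continuousAt_iff.1 hg (ε / (2 * D)) (by positivity)
    obtain ⟨K, hK⟩ : ∃ K : ℝ, K = |c 0| * L0 * L + |c 1| * L1 * L := ⟨_, rfl⟩
    have hK0 : 0 ≤ K := by rw [hK]; positivity
    have hr0 : Tendsto (fun q : ℝ × ℝ => ‖q - q₁‖) (𝓝 q₁) (𝓝 0) := by
      have h4 : Tendsto (fun q : ℝ × ℝ => q - q₁) (𝓝 q₁) (𝓝 (q₁ - q₁)) :=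
        tendsto_id.sub_const _
      rw [sub_self] at h4
      simpa using h4.norm
    have hr1 : ∀ᶠ q in 𝓝 q₁, ‖q - q₁‖ < δ₁ / D := hr0.eventually_lt_const (by positivity)
    have hr2 : ∀ᶠ q in 𝓝 q₁, ‖q - q₁‖ < ε / (2 * (K + 1)) :=
      hr0.eventually_lt_const (by positivity)
    filter_upwards [hU1, hZ0, hZ1, hr1, hr2, hlip, hQ.mem_nhds hq₁]
      with q hqU hqZ0 hqZ1 hqr1 hqr2 hqφ hqQ
    obtain ⟨r, hr⟩ : ∃ r : ℝ, r = ‖q - q₁‖ := ⟨_, rfl⟩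
    rw [← hr] at hqU hqZ0 hqZ1 hqr1 hqr2 hqφ ⊢
    have hr_nn : 0 ≤ r := by rw [hr]; positivity
    obtain ⟨Δ, hΔ⟩ : ∃ Δ : X, Δ = (U q + φ q) - w₁ := ⟨_, rfl⟩
    have hΔn : ‖Δ‖ ≤ D * r := by
      have e1 : Δ = (U q - U q₁) + (φ q - φ₁) := by rw [hΔ, hw₁, hφ₁]; abel
      rw [e1]
      refine (norm_add_le _ _).trans ?_
      rw [hD]; linarith
    obtain ⟨θ, hθ, hmv⟩ := mvt_J hJ w₁ Δ
    have hwΔ : w₁ + Δ = U q + φ q := by rw [hΔ]; abel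
    rw [hwΔ] at hmv
    have hξ : ‖g (w₁ + θ • Δ) - g w₁‖ ≤ ε / (2 * D) := by
      have e1 : dist (w₁ + θ • Δ) w₁ < δ₁ := by
        rw [dist_eq_norm]
        have : w₁ + θ • Δ - w₁ = θ • Δ := by abel
        rw [this, norm_smul, Real.norm_eq_abs, abs_of_pos hθ.1]
        have e2 : D * r < δ₁ := by
          rw [lt_div_iff₀ hD0] at hqr1; linarith
        have e3 : θ * ‖Δ‖ ≤ 1 * ‖Δ‖ := by
          gcongr; exact hθ.2.le
        linarith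
      have e4 := hgc e1
      rw [dist_eq_norm] at e4
      exact e4.le
    have hJw : J (U q₁ + φ q₁) = J w₁ := by rw [hw₁]
    have hid : (J (U q + φ q) - F q) - (J (U q₁ + φ q₁) - F q₁)
        = ⟪g (w₁ + θ • Δ) - g w₁, Δ⟫
          - (c 0 * ⟪Z q 0 - Z q₁ 0, φ q - φ₁⟫ + c 1 * ⟪Z q 1 - Z q₁ 1, φ q - φ₁⟫) := by
      have e1 : J (U q + φ q) - J w₁ = ⟪g (w₁ + θ • Δ), Δ⟫ := hmv
      have e2 : ⟪g w₁, Δ⟫ = ⟪g w₁, U q⟫ - ⟪g w₁, U q₁⟫ + ⟪g w₁, φ q - φ₁⟫ := by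
        have : Δ = (U q - U q₁) + (φ q - φ₁) := by rw [hΔ, hw₁, hφ₁]; abel
        rw [this, inner_add_right, inner_sub_right]
      have z0 : ⟪Z q 0, φ q⟫ = 0 := hZφ q hqQ 0
      have z1 : ⟪Z q 1, φ q⟫ = 0 := hZφ q hqQ 1
      have z2 : ⟪Z q₁ 0, φ₁⟫ = 0 := by rw [hφ₁]; exact hZφ q₁ hq₁ 0
      have z3 : ⟪Z q₁ 1, φ₁⟫ = 0 := by rw [hφ₁]; exact hZφ q₁ hq₁ 1
      have e3 : ⟪g w₁, φ q - φ₁⟫ = c 0 * ⟪Z q₁ 0, φ q⟫ + c 1 * ⟪Z q₁ 1, φ q⟫ := by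
        rw [hgφ, Fin.sum_univ_two, inner_add_left, real_inner_smul_left, real_inner_smul_left,
          inner_sub_right, inner_sub_right, z2, z3]
        ring
      have e4 : ⟪Z q 0 - Z q₁ 0, φ q - φ₁⟫ = - ⟪Z q₁ 0, φ q⟫ - ⟪φ₁, Z q 0⟫ := by
        rw [inner_sub_left, inner_sub_right, inner_sub_right, z0, z2, real_inner_comm φ₁ (Z q 0)]
        ring
      have e5 : ⟪Z q 1 - Z q₁ 1, φ q - φ₁⟫ = - ⟪Z q₁ 1, φ q⟫ - ⟪φ₁, Z q 1⟫ := by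
        rw [inner_sub_left, inner_sub_right, inner_sub_right, z1, z3, real_inner_comm φ₁ (Z q 1)]
        ring
      have e6 : ⟪φ₁, Z q₁ 0⟫ = 0 := by rw [real_inner_comm]; exact z2
      have e7 : ⟪φ₁, Z q₁ 1⟫ = 0 := by rw [real_inner_comm]; exact z3
      simp only [F, hJw, e6, e7]
      rw [inner_sub_left, e4, e5]
      linear_combination e1 + e2 + e3
    rw [hid]
    rw [show (0 : (ℝ × ℝ) →L[ℝ] ℝ) (q - q₁) = 0 from rfl, sub_zero]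
    rw [Real.norm_eq_abs]
    have b1 : |⟪g (w₁ + θ • Δ) - g w₁, Δ⟫| ≤ ε / (2 * D) * (D * r) :=
      (abs_real_inner_le_norm _ _).trans (by gcongr)
    have b2 : |c 0 * ⟪Z q 0 - Z q₁ 0, φ q - φ₁⟫| ≤ |c 0| * ((L0 * r) * (L * r)) := by
      rw [abs_mul]
      gcongr
      exact (abs_real_inner_le_norm _ _).trans (by gcongr)
    have b3 : |c 1 * ⟪Z q 1 - Z q₁ 1, φ q - φ₁⟫| ≤ |c 1| * ((L1 * r) * (L * r)) := by
      rw [abs_mul]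
      gcongr
      exact (abs_real_inner_le_norm _ _).trans (by gcongr)
    have b4 : |c 0| * ((L0 * r) * (L * r)) + |c 1| * ((L1 * r) * (L * r)) = K * r * r := by
      rw [hK]; ring
    have b5 : K * r ≤ ε / 2 := by
      rw [lt_div_iff₀ (by positivity)] at hqr2
      nlinarith
    have b6 : K * r * r ≤ ε / 2 * r := by gcongr
    have b7 : ε / (2 * D) * (D * r) = ε / 2 * r := by field_simp
    refine (abs_sub _ _).trans ?_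
    have b8 := abs_add_le (c 0 * ⟪Z q 0 - Z q₁ 0, φ q - φ₁⟫) (c 1 * ⟪Z q 1 - Z q₁ 1, φ q - φ₁⟫)
    linarith only [b1, b2, b3, b4, b6, b7, b8]
  have h9 := hR.add hF
  rw [zero_add] at h9
  have h10 : ((fun q => J (U q + φ q) - F q) + F) = fun q => J (U q + φ q) := by
    funext q; simp
  rw [h10] at h9
  exact h9

end lip

/-- THE REDUCTION. `J` is the functional, `g` its gradient, `A` its (symmetric) Hessian, Lipschitz on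
the ball of radius `R₀`. `U q` approximate solutions, `q ∈ Q` open in `ℝ²`, `Z q a` approximate
kernel with `∂_a U = κ_a Z_a`, `κ_a ≠ 0`. -/
theorem red_abstract {R₀ M m : ℝ} (hR₀ : 0 < R₀) (hM : 0 < M) (hm : 0 < m) :
    ∃ δ C : ℝ, 0 < δ ∧ 0 < C ∧
      ∀ (X : Type) [NormedAddCommGroup X] [InnerProductSpace ℝ X] [CompleteSpace X]
        (J : X → ℝ) (g : X → X) (A : X → X →L[ℝ] X)
        (Q : Set (ℝ × ℝ)) (U : ℝ × ℝ → X) (U' : ℝ × ℝ → (ℝ × ℝ) →L[ℝ] X)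
        (Z : ℝ × ℝ → Fin 2 → X) (Z' : ℝ × ℝ → Fin 2 → (ℝ × ℝ) →L[ℝ] X) (κ : ℝ × ℝ → Fin 2 → ℝ)
        (d s : ℝ) (P : Set (ℝ × ℝ)) (q₀ : ℝ × ℝ),
        (∀ u h : X, HasDerivAt (fun t : ℝ => J (u + t • h)) ⟪g u, h⟫ 0) →
        (∀ u, HasFDerivAt g (A u) u) → (∀ u x y, ⟪A u x, y⟫ = ⟪x, A u y⟫) →
        (∀ u u', ‖u‖ ≤ R₀ → ‖u'‖ ≤ R₀ → ‖A u - A u'‖ ≤ M * ‖u - u'‖) →
        IsOpen Q → P ⊆ Q → IsCompact P →
        (∀ q ∈ Q, HasFDerivAt U (U' q) q) → ContinuousOn U' Q →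
        (∀ q ∈ Q, ∀ a, HasFDerivAt (fun q => Z q a) (Z' q a) q) →
        (∀ a, ContinuousOn (fun q => Z' q a) Q) →
        (∀ q ∈ Q, U' q (1, 0) = κ q 0 • Z q 0 ∧ U' q (0, 1) = κ q 1 • Z q 1) →
        (∀ q ∈ Q, ∀ a, κ q a ≠ 0) →
        (∀ q ∈ Q, ∀ b, ‖Z' q b (1, 0)‖ ≤ M * |κ q 0| ∧ ‖Z' q b (0, 1)‖ ≤ M * |κ q 1|) →
        (∀ q ∈ Q, ∀ a, ‖Z q a‖ ≤ M) → (∀ q ∈ Q, ‖U q‖ ≤ R₀ / 2) →
        (∀ q ∈ Q, ∀ c : Fin 2 → ℝ, m * ∑ a, |c a| ≤ ‖∑ a, c a • Z q a‖) →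
        (∀ q ∈ Q, ∀ (x : X) (c : Fin 2 → ℝ), m * (‖x‖ + ∑ a, |c a|)
          ≤ ‖A (U q) x - ∑ a, c a • Z q a‖ + ∑ a, |⟪Z q a, x⟫|) →
        d ≤ δ → (∀ q ∈ Q, ‖g (U q)‖ ≤ d) →
        (s = 1 ∨ s = -1) → q₀ ∈ interior P →
        (∀ q ∈ frontier P, s * J (U q) + 2 * C * d ^ 2 < s * J (U q₀)) →
        ∃ q ∈ interior P, ∃ φ : X, ‖φ‖ ≤ C * d ∧ g (U q + φ) = 0 := by
  refine ⟨min (min (m ^ 2 / (4 * M)) (m * R₀ / 4)) (m ^ 3 / (4 * M)),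
    max (2 / m) ((4 + 2 * M / m) * (2 / m)), by positivity, by positivity, ?_⟩
  obtain ⟨C, hC⟩ : ∃ C : ℝ, C = max (2 / m) ((4 + 2 * M / m) * (2 / m)) := ⟨_, rfl⟩
  rw [← hC]
  intro X _ _ _ J g A Q U U' Z Z' κ d s P q₀ hJ hg hs hA hQ hPQ hP hU' _ hZ' _ hUκ hκ hZκ hZM hUR
    hZm hb hd hgU hs1 hq₀ hfr
  have hd1 : d ≤ m ^ 2 / (4 * M) := hd.trans ((min_le_left _ _).trans (min_le_left _ _))
  have hd2 : d ≤ m * R₀ / 4 := hd.trans ((min_le_left _ _).trans (min_le_right _ _))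
  have hd3 : d ≤ m ^ 3 / (4 * M) := hd.trans (min_le_right _ _)
  have hq₀P : q₀ ∈ P := interior_subset hq₀
  have hd0 : 0 ≤ d := (norm_nonneg _).trans (hgU q₀ (hPQ hq₀P))
  obtain ⟨ρ, hρ⟩ : ∃ ρ : ℝ, ρ = 2 * d / m := ⟨_, rfl⟩
  have hρ0 : 0 ≤ ρ := by rw [hρ]; positivity
  have h1 : M * ρ ≤ m / 2 := by
    rw [hρ]
    have : M * (2 * d / m) ≤ M * (2 * (m ^ 2 / (4 * M)) / m) := by gcongr
    refine this.trans (le_of_eq ?_); field_simp; norm_num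
  have h2 : ρ ≤ R₀ / 2 := by
    rw [hρ]
    have : 2 * d / m ≤ 2 * (m * R₀ / 4) / m := by gcongr
    refine this.trans (le_of_eq ?_); field_simp; norm_num
  have h3 : M * ρ ≤ m ^ 2 / 2 := by
    rw [hρ]
    have : M * (2 * d / m) ≤ M * (2 * (m ^ 3 / (4 * M)) / m) := by gcongr
    refine this.trans (le_of_eq ?_); field_simp; norm_num
  have hCρ : ρ ≤ C * d := by
    have : 2 / m ≤ C := by rw [hC]; exact le_max_left _ _
    calc ρ = 2 / m * d := by rw [hρ]; ring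
      _ ≤ C * d := by gcongr
  -- the family of solutions
  have hex : ∀ q : ℝ × ℝ, ∃ z : X × (Fin 2 → ℝ), q ∈ Q → (‖z.1‖ ≤ ρ ∧ (∑ a, |z.2 a|) ≤ ρ ∧
      g (U q + z.1) = ∑ a, z.2 a • Z q a ∧ ∀ a, ⟪Z q a, z.1⟫ = 0) := by
    intro q
    by_cases hq : q ∈ Q
    · obtain ⟨φ, c, hφ, hc, h4, h5⟩ := fix_exists hM hm hd0 hg hs hA (hUR q hq) (hb q hq)
        (hgU q hq) (by rw [← hρ]; exact h1) (by rw [← hρ]; exact h2)
      rw [← hρ] at hφ hc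
      exact ⟨(φ, c), fun _ => ⟨hφ, hc, h4, h5⟩⟩
    · exact ⟨0, fun h => absurd h hq⟩
  choose z hz using hex
  obtain ⟨φ, hφdef⟩ : ∃ φ : ℝ × ℝ → X, ∀ q, φ q = (z q).1 := ⟨fun q => (z q).1, fun _ => rfl⟩
  obtain ⟨c, hcdef⟩ : ∃ c : ℝ × ℝ → Fin 2 → ℝ, ∀ q, c q = (z q).2 :=
    ⟨fun q => (z q).2, fun _ => rfl⟩
  have hφ : ∀ q ∈ Q, ‖φ q‖ ≤ ρ := fun q hq => by rw [hφdef]; exact (hz q hq).1
  have hc : ∀ q ∈ Q, (∑ a, |c q a|) ≤ ρ := fun q hq => by rw [hcdef]; exact (hz q hq).2.1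
  have hgφ : ∀ q ∈ Q, g (U q + φ q) = ∑ a, c q a • Z q a := fun q hq => by
    rw [hφdef, hcdef]; exact (hz q hq).2.2.1
  have hZφ : ∀ q ∈ Q, ∀ a, ⟪Z q a, φ q⟫ = 0 := fun q hq => by
    rw [hφdef]; exact (hz q hq).2.2.2
  -- derivative of the reduced functional
  have hder : ∀ q ∈ Q, ∃ ℓ : (ℝ × ℝ) →L[ℝ] ℝ, HasFDerivAt (fun q => J (U q + φ q)) ℓ q ∧
      ∀ h, ℓ h = ⟪g (U q + φ q), U' q h⟫ - ∑ a, c q a * ⟪Z' q a h, φ q⟫ := by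
    intro q hq
    obtain ⟨L, hL, hlip⟩ := lip_phi hM hm hρ0 hg hA hQ hUR hφ hc hgφ hZφ h1 h2 hq (hb q hq)
      (hU' q hq) (hZ' q hq)
    exact deriv_J hJ hQ hq (hg _).continuousAt (hgφ q hq) hZφ (hU' q hq) (hZ' q hq) hL hlip
  -- comparison with `J ∘ U`
  have hcomp : ∀ q ∈ Q, |J (U q + φ q) - J (U q)| ≤ C * d ^ 2 := by
    intro q hq
    obtain ⟨θ, hθ, hmv⟩ := mvt_J hJ (U q) (φ q)
    have hUq : ‖U q‖ ≤ R₀ := by linarith [hUR q hq, norm_nonneg (U q)]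
    have hUθ : ∀ t : ℝ, t ∈ Icc (0 : ℝ) 1 → ‖U q + t • φ q‖ ≤ R₀ := by
      intro t ht
      refine (norm_add_le _ _).trans ?_
      rw [norm_smul, Real.norm_eq_abs, abs_of_nonneg ht.1]
      have : t * ‖φ q‖ ≤ 1 * ρ := by
        gcongr
        · exact ht.2
        · exact hφ q hq
      linarith [hUR q hq]
    have hts : ∀ t : ℝ, t ∈ Icc (0 : ℝ) 1 →
        ‖g (U q + t • φ q) - g (U q) - A (U q) (t • φ q)‖ ≤ M * ρ * ρ := by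
      intro t ht
      have htn : ‖t • φ q‖ ≤ ρ := by
        rw [norm_smul, Real.norm_eq_abs, abs_of_nonneg ht.1]
        calc t * ‖φ q‖ ≤ 1 * ρ := by
              gcongr
              · exact ht.2
              · exact hφ q hq
          _ = ρ := one_mul _
      have h4 := taylor_g hM.le hg hA (v := U q) (u := U q) (u' := U q + t • φ q) (ρ := ρ)
        hUq hUq (hUθ t ht) (by simpa using hρ0) (by simpa using htn)
      rw [add_sub_cancel_left] at h4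
      refine h4.trans ?_
      gcongr
    have ht1 := hts 1 ⟨zero_le_one, le_refl 1⟩
    rw [one_smul] at ht1
    have htθ := hts θ ⟨hθ.1.le, hθ.2.le⟩
    have hgn : ‖g (U q + φ q)‖ ≤ M * ρ := by
      rw [hgφ q hq]
      refine (norm_sum_le _ _).trans ?_
      calc ∑ a, ‖c q a • Z q a‖ ≤ ∑ a, |c q a| * M := by
            apply Finset.sum_le_sum
            intro a _
            rw [norm_smul, Real.norm_eq_abs]
            gcongr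
            exact hZM q hq a
        _ = (∑ a, |c q a|) * M := by rw [Finset.sum_mul]
        _ ≤ ρ * M := by gcongr; exact hc q hq
        _ = M * ρ := mul_comm _ _
    have hAn : ‖A (U q) (φ q)‖ ≤ M * ρ + d + M * ρ * ρ := by
      have e1 : A (U q) (φ q) = g (U q + φ q) - g (U q)
          - (g (U q + φ q) - g (U q) - A (U q) (φ q)) := by abel
      rw [e1]
      refine (norm_sub_le _ _).trans ?_
      have := norm_sub_le (g (U q + φ q)) (g (U q))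
      have := hgU q hq
      linarith
    have hgθ : ‖g (U q + θ • φ q)‖ ≤ (4 + 2 * M / m) * d := by
      have e1 : g (U q + θ • φ q) = (g (U q + θ • φ q) - g (U q) - A (U q) (θ • φ q)) + g (U q)
          + A (U q) (θ • φ q) := by abel
      have e2 : ‖A (U q) (θ • φ q)‖ ≤ M * ρ + d + M * ρ * ρ := by
        rw [map_smul, norm_smul, Real.norm_eq_abs, abs_of_pos hθ.1]
        calc θ * ‖A (U q) (φ q)‖ ≤ 1 * (M * ρ + d + M * ρ * ρ) := by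
              gcongr
              exact hθ.2.le
          _ = _ := one_mul _
      have e3 : ‖g (U q + θ • φ q)‖ ≤ M * ρ * ρ + d + (M * ρ + d + M * ρ * ρ) := by
        rw [e1]
        refine (norm_add_le _ _).trans ?_
        have := norm_add_le (g (U q + θ • φ q) - g (U q) - A (U q) (θ • φ q)) (g (U q))
        have := hgU q hq
        linarith
      have e4 : M * ρ * ρ ≤ m / 2 * ρ := by gcongr
      have e5 : m * ρ = 2 * d := by rw [hρ]; field_simp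
      have e6 : (4 + 2 * M / m) * d = 4 * d + M * ρ := by rw [hρ]; ring
      rw [e6]
      linarith
    have e7 : (4 + 2 * M / m) * (2 / m) ≤ C := by rw [hC]; exact le_max_right _ _
    rw [hmv]
    refine (abs_real_inner_le_norm _ _).trans ?_
    calc ‖g (U q + θ • φ q)‖ * ‖φ q‖ ≤ ((4 + 2 * M / m) * d) * ρ := by
          gcongr
          exact hφ q hq
      _ = ((4 + 2 * M / m) * (2 / m)) * d ^ 2 := by rw [hρ]; ring
      _ ≤ C * d ^ 2 := by gcongr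
  -- the maximum
  have hcont : ContinuousOn (fun q => s * J (U q + φ q)) P := by
    intro q hq
    obtain ⟨ℓ, hℓ, -⟩ := hder q (hPQ hq)
    exact (hℓ.continuousAt.const_mul s).continuousWithinAt
  obtain ⟨q₁, hq₁, hmax⟩ := hP.exists_isMaxOn ⟨q₀, hq₀P⟩ hcont
  have hsabs : |s| = 1 := by rcases hs1 with h | h <;> rw [h] <;> norm_num
  have hcomp' : ∀ q ∈ Q, |s * J (U q + φ q) - s * J (U q)| ≤ C * d ^ 2 := by
    intro q hq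
    rw [← mul_sub, abs_mul, hsabs, one_mul]
    exact hcomp q hq
  have hint : q₁ ∈ interior P := by
    by_contra hni
    have hfr1 : q₁ ∈ frontier P := ⟨subset_closure hq₁, hni⟩
    have e1 := hfr q₁ hfr1
    have e2 := (abs_le.1 (hcomp' q₁ (hPQ hq₁))).2
    have e3 := (abs_le.1 (hcomp' q₀ (hPQ hq₀P))).1
    have e4 : s * J (U q₀ + φ q₀) ≤ s * J (U q₁ + φ q₁) := hmax hq₀P
    linarith
  refine ⟨q₁, hint, φ q₁, (hφ q₁ (hPQ hq₁)).trans hCρ, ?_⟩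
  have hq₁Q := hPQ hq₁
  obtain ⟨ℓ, hℓ, hℓ'⟩ := hder q₁ hq₁Q
  have hlocmax : IsLocalMax (fun q => s * J (U q + φ q)) q₁ :=
    hmax.isLocalMax (mem_interior_iff_mem_nhds.1 hint)
  have hzero := hlocmax.hasFDerivAt_eq_zero (hℓ.const_mul s)
  have hs0 : s ≠ 0 := by rcases hs1 with h | h <;> rw [h] <;> norm_num
  have hℓ0 : ∀ h, ℓ h = 0 := by
    intro h
    have e1 : (s • ℓ) h = 0 := by rw [hzero]; rfl
    have e2 : (s • ℓ) h = s * ℓ h := rfl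
    rw [e2] at e1
    exact (mul_eq_zero.1 e1).resolve_left hs0
  obtain ⟨G, hG⟩ : ∃ G : X, G = g (U q₁ + φ q₁) := ⟨_, rfl⟩
  obtain ⟨S, hS⟩ : ∃ S : ℝ, S = ∑ a, |c q₁ a| := ⟨_, rfl⟩
  have hS0 : 0 ≤ S := by rw [hS]; exact Finset.sum_nonneg fun a _ => abs_nonneg _
  have hGZ : G = ∑ a, c q₁ a • Z q₁ a := by rw [hG]; exact hgφ q₁ hq₁Q
  have hkey : ∀ (h : ℝ × ℝ) (k : ℝ) (Zh : X), U' q₁ h = k • Zh → k ≠ 0 →
      (∀ b, ‖Z' q₁ b h‖ ≤ M * |k|) → |⟪G, Zh⟫| ≤ M * ρ * S := by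
    intro h k Zh hU1 hk hZ1
    have e1 := hℓ' h
    rw [hℓ0, ← hG, hU1, real_inner_smul_right] at e1
    have e2 : k * ⟪G, Zh⟫ = ∑ a, c q₁ a * ⟪Z' q₁ a h, φ q₁⟫ := by linarith
    have e3 : |k| * |⟪G, Zh⟫| ≤ |k| * (M * ρ * S) := by
      rw [← abs_mul, e2]
      refine (Finset.abs_sum_le_sum_abs _ _).trans ?_
      calc ∑ a, |c q₁ a * ⟪Z' q₁ a h, φ q₁⟫| ≤ ∑ a, |c q₁ a| * ((M * |k|) * ρ) := by
            apply Finset.sum_le_sum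
            intro a _
            rw [abs_mul]
            gcongr
            refine (abs_real_inner_le_norm _ _).trans ?_
            gcongr
            · exact hZ1 a
            · exact hφ q₁ hq₁Q
        _ = |k| * (M * ρ * S) := by rw [← Finset.sum_mul, hS]; ring
    exact le_of_mul_le_mul_left e3 (abs_pos.2 hk)
  have hk0 := hkey (1, 0) (κ q₁ 0) (Z q₁ 0) (hUκ q₁ hq₁Q).1 (hκ q₁ hq₁Q 0)
    (fun b => (hZκ q₁ hq₁Q b).1)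
  have hk1 := hkey (0, 1) (κ q₁ 1) (Z q₁ 1) (hUκ q₁ hq₁Q).2 (hκ q₁ hq₁Q 1)
    (fun b => (hZκ q₁ hq₁Q b).2)
  have hnorm : ‖G‖ ^ 2 ≤ M * ρ * S * S := by
    have e1 : ⟪G, G⟫ = c q₁ 0 * ⟪G, Z q₁ 0⟫ + c q₁ 1 * ⟪G, Z q₁ 1⟫ := by
      have e2 : ⟪G, ∑ a, c q₁ a • Z q₁ a⟫ = c q₁ 0 * ⟪G, Z q₁ 0⟫ + c q₁ 1 * ⟪G, Z q₁ 1⟫ := by
        rw [Fin.sum_univ_two, inner_add_right, real_inner_smul_right, real_inner_smul_right]
      rwa [← hGZ] at e2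
    rw [← real_inner_self_eq_norm_sq, e1]
    have e3 : c q₁ 0 * ⟪G, Z q₁ 0⟫ ≤ |c q₁ 0| * (M * ρ * S) := by
      refine (le_abs_self _).trans ?_
      rw [abs_mul]; gcongr
    have e4 : c q₁ 1 * ⟪G, Z q₁ 1⟫ ≤ |c q₁ 1| * (M * ρ * S) := by
      refine (le_abs_self _).trans ?_
      rw [abs_mul]; gcongr
    have e5 : S = |c q₁ 0| + |c q₁ 1| := by rw [hS, Fin.sum_univ_two]
    have e6 : M * ρ * S * S = |c q₁ 0| * (M * ρ * S) + |c q₁ 1| * (M * ρ * S) := by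
      nth_rewrite 2 [e5]; ring
    linarith
  have hlow : m * S ≤ ‖G‖ := by
    rw [hS, hGZ]; exact hZm q₁ hq₁Q (c q₁)
  have hlow2 : (m * S) ^ 2 ≤ ‖G‖ ^ 2 := by
    have : 0 ≤ m * S := by positivity
    gcongr
  have hS2 : S ^ 2 ≤ 0 := by
    have e1 : M * ρ * S * S ≤ m ^ 2 / 2 * S * S := by gcongr
    have e2 : m ^ 2 * S ^ 2 ≤ 0 := by nlinarith
    have e3 : 0 < m ^ 2 := by positivity
    by_contra hc
    push Not at hc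
    have := mul_pos e3 hc
    linarith
  have hSz : S = 0 := by
    have : S ^ 2 = 0 := le_antisymm hS2 (sq_nonneg S)
    exact pow_eq_zero_iff (two_ne_zero) |>.1 this
  rw [hSz] at hnorm
  rw [← hG]
  have : ‖G‖ ^ 2 = 0 := le_antisymm (by simpa using hnorm) (sq_nonneg _)
  exact norm_eq_zero.1 (pow_eq_zero_iff (two_ne_zero) |>.1 this)

end Pool.Agent.helper13.BN
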